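import Mathlib
import Pool.Agent.H451.KF.Def

/-!
# Single characters of the Galois group of a Kummer extension; rank stability

Definitions, continuing `Pool/Agent/H451/KF/Def.lean`.
-/

set_option autoImplicit false

namespace Pool.Agent.H451.KG

open NumberField IsDedekindDomain
open Pool.Agent.H451.CubT (E)
open Pool.Agent.H451.KF
open scoped Classical TensorProduct

section defs
variable {K : Type} [Field K] [NumberField K] {r : ℕ}

/-- The points of `E_D : y² + D y = x³` over `F`. -/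
abbrev Pt (D : 𝓞 K) (F : Type) [Field F] [Algebra K F] : Type :=
  (WeierstrassCurve.Affine.baseChange (E (D : K)).toAffine F).toAffine.Point

/-- The conjugate `σ P = (σ x, σ y)` of a point. -/
noncomputable def conj {D : 𝓞 K} {F : Type} [Field F] [Algebra K F] (σ : F ≃ₐ[K] F)
    (P : Pt D F) : Pt D F :=
  WeierstrassCurve.Affine.Point.map (W' := (E (D : K)).toAffine) (σ : F →ₐ[K] F) P

/-- The character `χ` of the Galois group of `F / K` does not occur in `ℂ ⊗ E_D(F)`: the operator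
`∑ χ(σ)⁻¹ σ` is zero there. -/
def NotIn (D : 𝓞 K) (F : Type) [Field F] [Algebra K F] [Fintype (F ≃ₐ[K] F)]
    (χ : (F ≃ₐ[K] F) →* ℂˣ) : Prop :=
  ∀ P : Pt D F, ∑ σ : F ≃ₐ[K] F, ((χ σ)⁻¹ : ℂˣ).val ⊗ₜ[ℤ] conj σ P = (0 : ℂ ⊗[ℤ] Pt D F)

/-- `L(E_D / K, χ, s)`, without the Euler factors at the primes dividing `3`, `D` or some `β i`, is entire and
does not vanish at `s = 1`; for every choice of the Frobenius automorphisms `φ v`. -/
def Nonvan (D : 𝓞 K) (β : Fin r → 𝓞 K) (F : Type) [Field F] [NumberField F] [Algebra K F]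
    (χ : (F ≃ₐ[K] F) →* ℂˣ) : Prop :=
  ∀ φ : {v // GoodK D β v} → F ≃ₐ[K] F, (∀ v, IsFrobenius v.1 F (φ v)) →
    ∃ L : ℂ → ℂ, Differentiable ℂ L ∧ L 1 ≠ 0 ∧ ∀ s : ℂ, 3 / 2 < s.re →
      HasProd (fun v : {v // GoodK D β v} =>
        (1 - (tr D v.1 : ℂ) * (Ideal.absNorm v.1.asIdeal : ℂ) ^ (-s) * (χ (φ v)⁻¹).val +
          (Ideal.absNorm v.1.asIdeal : ℂ) ^ (1 - 2 * s) * (χ (φ v)⁻¹).val ^ 2)⁻¹) (L s)

/-- The equivariant conjecture of Birch and Swinnerton-Dyer for `E_D` and the character `χ`, with both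
sides equal to zero. -/
def CharZ (D : 𝓞 K) (β : Fin r → 𝓞 K) (F : Type) [Field F] [NumberField F] [Algebra K F]
    [Fintype (F ≃ₐ[K] F)] (χ : (F ≃ₐ[K] F) →* ℂˣ) : Prop :=
  NotIn D F χ ∧ Nonvan D β F χ

/-- `E_D(F)` has the same rank as `E_D(K)`: some positive multiple of every point of `E_D(F)` has
coordinates in `K` (or is zero). -/
def SameRank (D : 𝓞 K) (F : Type) [Field F] [Algebra K F] : Prop :=
  ∃ n : ℕ, 0 < n ∧ ∀ P : (E (algebraMap K F D)).toAffine.Point, n • P = 0 ∨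
    ∃ (x y : K) (h : _), n • P = .some (algebraMap K F x) (algebraMap K F y) h

/-- `L(E_D / F, s) = L(E_D / K, s) G(s)`, `Re s > 3 / 2`, with an entire function `G` which does not vanish
at `s = 1` (without the Euler factors at the primes dividing `3`, `D` or some `β i`): if one of the two
`L`-functions continues to a neighbourhood of `s = 1` then so does the other, with the same order. -/
def SameOrder (D : 𝓞 K) (β : Fin r → 𝓞 K) (F : Type) [Field F] [NumberField F] [Algebra K F] :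
    Prop :=
  ∃ G : ℂ → ℂ, Differentiable ℂ G ∧ G 1 ≠ 0 ∧ ∀ s : ℂ, 3 / 2 < s.re → ∃ z : ℂ,
    HasProd (fun v : {v // GoodK D β v} => (factor D v.1 s)⁻¹) z ∧
    HasProd (fun v : {v // GoodF D β F v} => (factor (algebraMap (𝓞 K) (𝓞 F) D) v.1 s)⁻¹)
      (z * G s)

end defs

end Pool.Agent.H451.KG
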