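import Mathlib
import Pool.Agent.H451.KG.Def
import Pool.Agent.H451.KF.Stm

/-!
# The statements of the project KG
-/

set_option autoImplicit false
set_option linter.unusedVariables false

namespace Pool.Agent.H451.KG

open NumberField IsDedekindDomain
open Pool.Agent.H451.CubT (E)
open Pool.Agent.H451.BB
open Pool.Agent.H451.KF
open Pool.Agent.Y692.QS (Ei w)
open Pool.Agent.Y715.T.Rec (cs)
open scoped Classical TensorProduct

/-- **KG-MULT** (a character which does not occur).  Everything as in `S_PTS` (`Pool/Agent/H451/KF/PTS.lean`),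
for one `l ∈ 𝔽₃ʳ`.

Proof.  Use the objects of `t_PTS`: `V = baseChange (E D) F`, `A = imE hisE hJ2` (`(x, y) ↦ (J x, y)`,
`J = algebraMap K F I`), `s σ = Affine.Point.map σ`, `LL c l σ = ∑ l i c σ i`, `pw A k = A ^ k.val`,
`pr c A s l = ∑_σ pw A (-LL c l σ) * s σ`.  By `pr_eig` the image of `pr c A s l` is contained in
`{P | ∀ τ, s τ P = pw A (LL c l τ) P}`, which is finite if `E_{D b^l}(K)` is finite (this is the last bullet of
the proof of `t_PTS`; copy it for a single `l`).  So there is `n > 0` with `n • pr c A s l P = 0` for all `P` (the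
image is a finite group), and in the same way for `-l` (note `LL c (-l) σ = - LL c l σ`).
Let `T = ℂ ⊗[ℤ] V.Point`, `z = tw 1 = toC w`, a primitive third root of unity in `ℂ` (`z ^ 2 + z + 1 = 0`),
`a = LinearMap.lTensor ℂ A` or `TensorProduct.map`: the `ℂ`-linear endomorphism `t ⊗ P ↦ t ⊗ A P` of `T`;
`a ^ 2 + a + 1 = 0`.  Put `e₊ = a - z²`, `e₋ = a - z`: then `a e₊ = z e₊` (as `(a - z)(a - z²) = a² + a + 1 = 0`),
`a e₋ = z² e₋`, and `e₊ - e₋ = z - z² ≠ 0`.  Let `Y = ∑_σ tw (-LL c l σ) ⊗ s σ P`.  Then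
`e₊ Y = ∑_σ tw (-LL c l σ) e₊ (1 ⊗ s σ P) = ∑_σ e₊ (1 ⊗ pw A (-LL c l σ) (s σ P)) = e₊ (1 ⊗ pr c A s l P) = 0`
since `a ^ k` acts on the image of `e₊` as `z ^ k`, `tw k = z ^ k.val`, and `1 ⊗ Q = (1/n) ⊗ (n • Q) = 0` for a torsion
point `Q`.  Likewise `e₋ Y = ∑_σ e₋ (1 ⊗ pw A (LL c l σ) (s σ P)) = e₋ (1 ⊗ pr c A s (-l) P) = 0`
(`a ^ k` acts on the image of `e₋` as `z ^ (2 k) = tw (-k)`).  So `(z - z²) Y = 0`, `Y = 0`. -/
def S_MULT : Prop := ∀ (K F : Type) [Field K] [CharZero K] [Field F] [Algebra K F]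
  [FiniteDimensional K F] [IsGalois K F] [Fintype (F ≃ₐ[K] F)] (I : K), I ^ 2 + I + 1 = 0 →
  ∀ (r : ℕ) (b : Fin r → K) (θ : Fin r → F) (c : (F ≃ₐ[K] F) → Fin r → ZMod 3),
  (∀ i, b i ≠ 0) → (∀ i, θ i ^ 3 = algebraMap K F (b i)) →
  (∀ σ τ i, c (σ * τ) i = c σ i + c τ i) → Function.Injective c →
  (∀ σ i, σ (θ i) = algebraMap K F (I ^ (c σ i).val) * θ i) →
  ∀ D : K, D ≠ 0 → ∀ l : Fin r → ZMod 3,
  Finite (E (D * ∏ i, b i ^ (l i).val)).toAffine.Point →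
  Finite (E (D * ∏ i, b i ^ ((-l) i).val)).toAffine.Point →
  ∀ P : (WeierstrassCurve.Affine.baseChange (E D).toAffine F).toAffine.Point,
    ∑ σ : F ≃ₐ[K] F, tw (-∑ i, l i * c σ i) ⊗ₜ[ℤ]
      WeierstrassCurve.Affine.Point.map (W' := (E D).toAffine) (σ : F →ₐ[K] F) P =
    (0 : ℂ ⊗[ℤ] (WeierstrassCurve.Affine.baseChange (E D).toAffine F).toAffine.Point)

/-- **KG-SAME** (the same rank).  Everything as in `S_PTS` (`Pool/Agent/H451/KF/PTS.lean`), but only the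
`E_{D b^l}(K)` with `l ≠ 0` are supposed to be finite.

Proof.  With the objects of `t_PTS` (see above): for `l ≠ 0` the image of `pr c A s l` is finite, so killed by
some `n_l > 0`; by `pr_sum`, `3 • ∑_l pr c A s l P = 3 ^ (r + 1) • P`.  So with `n = ∏_{l ≠ 0} n_l`:
`n 3 ^ (r + 1) • P = 3 n • pr c A s 0 P`, and `Q = 3 n • pr c A s 0 P` satisfies `s τ Q = Q` for all `τ` (`pr_eig`,
`LL c 0 τ = 0`), so `Q = 0` or the coordinates of `Q` are fixed by the Galois group and lie in `K`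
(`IsGalois.mem_range_algebraMap_iff_fixed`). -/
def S_SAME : Prop := ∀ (K F : Type) [Field K] [CharZero K] [Field F] [Algebra K F]
  [FiniteDimensional K F] [IsGalois K F] (I : K), I ^ 2 + I + 1 = 0 →
  ∀ (r : ℕ) (b : Fin r → K) (θ : Fin r → F) (c : (F ≃ₐ[K] F) → Fin r → ZMod 3),
  (∀ i, b i ≠ 0) → (∀ i, θ i ^ 3 = algebraMap K F (b i)) →
  (∀ σ τ i, c (σ * τ) i = c σ i + c τ i) → Function.Injective c →
  (∀ σ i, σ (θ i) = algebraMap K F (I ^ (c σ i).val) * θ i) →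
  ∀ D : K, D ≠ 0 →
  (∀ l : Fin r → ZMod 3, l ≠ 0 → Finite (E (D * ∏ i, b i ^ (l i).val)).toAffine.Point) →
  ∃ n : ℕ, 0 < n ∧ ∀ P : (E (algebraMap K F D)).toAffine.Point, n • P = 0 ∨
    ∃ (x y : K) (h : _), n • P = .some (algebraMap K F x) (algebraMap K F y) h

/-- **KG-LC1** (as `S_LCH`, for one `l`). -/
def S_LC1 : Prop := ∀ (r : ℕ) (d : Ei) (b : Fin r → Ei) (T : Set (HeightOneSpectrum Ei)),
  (∀ P ∈ T, ¬ Over3 P ∧ ¬ rho P ∣ d ∧ ∀ i, ¬ rho P ∣ b i) → ∀ l : Fin r → ZMod 3,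
  HL (d * ∏ i, b i ^ (l i).val) T → HL (d * ∏ i, b i ^ ((-l) i).val) T →
  ∃ L : ℂ → ℂ, Differentiable ℂ L ∧ L 1 ≠ 0 ∧ ∀ s : ℂ, 3 / 2 < s.re →
    HasProd (fun P : {P : HeightOneSpectrum Ei // P ∈ T} =>
      (1 - (xc d P.1 + (starRingEnd ℂ) (xc d P.1)) * Np P.1 ^ (-s) *
        tw (-∑ i, l i * cs (rho P.1) (b i)) +
        Np P.1 ^ (1 - 2 * s) * tw (-∑ i, l i * cs (rho P.1) (b i)) ^ 2)⁻¹) (L s)

end Pool.Agent.H451.KG
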