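import Mathlib
import Pool.Agent.H451.KG.Stm
import Pool.Agent.H451.KF.LCH

/-!
# KG-LC1
-/

set_option autoImplicit false
set_option linter.unusedVariables false

namespace Pool.Agent.H451.KG

open NumberField IsDedekindDomain
open Pool.Agent.H451.BB
open Pool.Agent.H451.KF
open Pool.Agent.Y703.CT
open Pool.Agent.Y696.CT
open Pool.Agent.Y696.CTK hiding toC_w
open Pool.Agent.Y692.QS hiding chi Jc Jc_nr chi_red chi_neg_one
open Pool.Agent.Y715.T.Rec (cs nn)
open Pool.Agent.Y715.T.RecG (Pq)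
open scoped Classical

theorem t_LC1 : S_LC1 := by
  intro r d b T hT l hH1 hH2
  obtain ⟨H1, hd1, hn1, hp1⟩ := hH1
  obtain ⟨H2, hd2, hn2, hp2⟩ := hH2
  refine ⟨fun s => H1 s * (starRingEnd ℂ) (H2 ((starRingEnd ℂ) s)), ?_, ?_, ?_⟩
  · refine hd1.mul ?_
    intro s
    have h1 := (hd2 ((starRingEnd ℂ) s)).conj_conj
    rw [Complex.conj_conj] at h1
    exact h1
  · simp only [map_one]
    exact mul_ne_zero hn1 ((map_ne_zero _).2 hn2)
  · intro s hs
    have hsc : 3 / 2 < ((starRingEnd ℂ) s).re := by rwa [Complex.conj_re]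
    have h3 := hp1 s hs
    have h4 := (hp2 _ hsc).map (starRingEnd ℂ) Complex.continuous_conj
    refine (h3.mul h4).congr_fun fun P => ?_
    obtain ⟨hP3, hPd, hPb⟩ := hT P.1 P.2
    rw [Function.comp_apply, lch_xc d b P.1 hP3 hPd hPb, lch_xc d b P.1 hP3 hPd hPb, map_inv₀,
      map_sub, map_one, map_mul, conj_np, map_neg, Complex.conj_conj, map_mul, lch_conj_tw,
      ← mul_inv]
    congr 1
    have e1 : (-∑ i, (-l) i * cs (rho P.1) (b i)) = ∑ i, l i * cs (rho P.1) (b i) := by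
      rw [← Finset.sum_neg_distrib]
      refine Finset.sum_congr rfl fun i _ => ?_
      rw [Pi.neg_apply, neg_mul, neg_neg]
    rw [e1, ← lch_np P.1 s, ← xc_sq hP3 hPd]
    ring

end Pool.Agent.H451.KG
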