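import Mathlib
import Pool.Agent.H451.KG.LC1
import Pool.Agent.H451.KF.Asm3

/-!
# The `L`-function over `F` and the twisted `L`-functions; single characters
-/

set_option autoImplicit false
set_option linter.unusedVariables false
set_option linter.unusedSectionVars false

namespace Pool.Agent.H451.KG

open NumberField IsDedekindDomain
open Pool.Agent.H451.CubT (E)
open Pool.Agent.H451.BB
open Pool.Agent.H451.KF
open Pool.Agent.Y703.CT
open Pool.Agent.Y696.CT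
open Pool.Agent.Y696.CTK hiding toC_w
open Pool.Agent.Y692.QS hiding chi Jc Jc_nr chi_red chi_neg_one
open Pool.Agent.Y715.T.Rec (cs nn)
open Pool.Agent.Y715.T.RecG (Pq)
open scoped Classical

section rz
variable {K : Type} [Field K] [NumberField K] [IsCyclotomicExtension {3} ℚ K] (j : Ei ≃+* 𝓞 K)
  {F : Type} [Field F] [NumberField F] [Algebra K F] {r : ℕ} {d : Ei} {b : Fin r → Ei}
  {θ : Fin r → F} {c : (F ≃ₐ[K] F) → Fin r → ZMod 3}

theorem rz_core (hTR : S_TR) (hTRF : KF.S_TRF) (hEXF : S_EXF) (hFRB : S_FRB) (hUNR : KF.S_UNR)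
    (hLOC : S_LOC) (hMUL : S_MUL) [IsGalois K F]
    (hθ : ∀ i, θ i ^ 3 = algebraMap K F (j (b i) : K))
    (hcm : ∀ σ τ i, c (σ * τ) i = c σ i + c τ i) (hci : Function.Injective c)
    (hcθ : ∀ σ i, σ (θ i) = algebraMap K F ((j w : K) ^ (c σ i).val) * θ i)
    (l : ((F ≃ₐ[K] F) →* ℂˣ) → Fin r → ZMod 3)
    (hl : ∀ χ σ, (χ σ : ℂ) = tw (∑ x, l χ x * c σ x))
    [hft : Fintype ((F ≃ₐ[K] F) →* ℂˣ)] (s : ℂ) (hs : 3 / 2 < s.re) (z : ℂ)
    (h4 : HasProd (fun P : {P : HeightOneSpectrum Ei // P ∈ KF.TT d b} =>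
      ∏ χ, (cfac d b (l χ) P.1 s)⁻¹) z) :
    HasProd (fun v : {v // GoodF (j d) (fun i => j (b i)) F v} =>
        (KF.factor (algebraMap (𝓞 K) (𝓞 F) (j d)) v.1 s)⁻¹) z := by
  -- the local identity
  obtain ⟨D, hD⟩ : ∃ D : 𝓞 F, D = algebraMap (𝓞 K) (𝓞 F) (j d) := ⟨_, rfl⟩
  rw [← hD]
  have hloc : ∀ P : HeightOneSpectrum Ei, P ∈ KF.TT d b →
      {u : HeightOneSpectrum (𝓞 F) | below u = eK j P}.Finite ∧
      (∀ u : HeightOneSpectrum (𝓞 F), below u = eK j P →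
        ((tr D u : ℤ) : ℝ) ^ 2 ≤ 4 * (Ideal.absNorm u.asIdeal : ℝ)) ∧
      ∃ z : ℂ, (∀ u : HeightOneSpectrum (𝓞 F), below u = eK j P → KF.factor D u s = z) ∧
        z ^ {u : HeightOneSpectrum (𝓞 F) | below u = eK j P}.ncard =
          ∏ χ, cfac d b (l χ) P s := by
    intro P hP
    have hset : {u : HeightOneSpectrum (𝓞 F) | below u = eK j P} =
        {u : HeightOneSpectrum (𝓞 F) |
          u.asIdeal.comap (algebraMap (𝓞 K) (𝓞 F)) = (eK j P).asIdeal} := by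
      ext u
      exact HeightOneSpectrum.ext_iff
    have hbel : ∀ u : HeightOneSpectrum (𝓞 F), below u = eK j P →
        u.asIdeal.comap (algebraMap (𝓞 K) (𝓞 F)) = (eK j P).asIdeal := fun u hu =>
      HeightOneSpectrum.ext_iff.1 hu
    obtain ⟨φ, hφ⟩ := hEXF K F (eK j P)
    obtain ⟨g1, f, hf, g2, g3⟩ := hLOC K F (c_comm hcm hci) (eK j P)
      (hUNR K F j r b θ c hθ hcm hci hcθ P hP.1 hP.2.2) φ hφ
    obtain ⟨e1, e2⟩ := hTR K j d P hP.1 hP.2.1
    have hxx := xc_sq hP.1 hP.2.1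
    have htr : ∀ u : HeightOneSpectrum (𝓞 F), below u = eK j P →
        (tr D u : ℂ) = xc d P ^ f + (starRingEnd ℂ) (xc d P) ^ f := by
      intro u hu
      rw [hD]
      exact hTRF K F j d P hP.1 hP.2.1 u f (hbel u hu) (g2 u (hbel u hu))
    have hN : ∀ u : HeightOneSpectrum (𝓞 F), below u = eK j P →
        (Ideal.absNorm u.asIdeal : ℂ) = Np P ^ f := by
      intro u hu
      rw [g2 u (hbel u hu), ← e1, Nat.cast_pow]
    refine ⟨by rw [hset]; exact g1, fun u hu => ?_, ?_⟩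
    · -- the Hasse bound
      have a1 := htr u hu
      have a2 : ((tr D u : ℤ) : ℂ) = ((2 * ((xc d P) ^ f).re : ℝ) : ℂ) := by
        rw [a1, ← map_pow, Complex.add_conj]
      have a3 : ((tr D u : ℤ) : ℝ) = 2 * ((xc d P) ^ f).re := by exact_mod_cast a2
      have a4 : ((xc d P) ^ f).re ^ 2 ≤ Complex.normSq ((xc d P) ^ f) := by
        rw [Complex.normSq_apply]
        nlinarith [mul_self_nonneg ((xc d P) ^ f).im]
      have a5 : ((Complex.normSq ((xc d P) ^ f) : ℝ) : ℂ) = ((Ideal.absNorm u.asIdeal : ℝ) : ℂ) := by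
        rw [Complex.normSq_eq_conj_mul_self, map_pow, ← mul_pow, mul_comm _ (xc d P), hxx]
        rw [Complex.ofReal_natCast, hN u hu]
      have a6 : Complex.normSq ((xc d P) ^ f) = (Ideal.absNorm u.asIdeal : ℝ) := by
        exact_mod_cast a5
      rw [a3, ← a6]
      nlinarith
    · obtain ⟨X, hX⟩ : ∃ X : ℂ, X = Np P ^ (-s) := ⟨_, rfl⟩
      have hN2 : Np P ^ (1 - 2 * s) = Np P * X ^ 2 := by
        have : (1 - 2 * s : ℂ) = 1 + (2 : ℕ) * (-s) := by push_cast; ring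
        rw [this, Complex.cpow_add _ _ (np_ne P), Complex.cpow_one, Complex.cpow_nat_mul, hX]
      have hcf : ∀ χ, cfac d b (l χ) P s = 1 - (xc d P + (starRingEnd ℂ) (xc d P)) * X *
          χ φ⁻¹ + xc d P * (starRingEnd ℂ) (xc d P) * X ^ 2 * (χ φ⁻¹ : ℂ) ^ 2 := by
        intro χ
        rw [chi_inv j hFRB hθ hcm hcθ hP hφ (hl χ), hxx]
        unfold cfac
        rw [hN2, hX]
      refine ⟨1 - (xc d P ^ f + (starRingEnd ℂ) (xc d P) ^ f) * X ^ f +
        (xc d P * (starRingEnd ℂ) (xc d P)) ^ f * (X ^ f) ^ 2, fun u hu => ?_, ?_⟩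
      · unfold KF.factor
        rw [htr u hu, hN u hu, hxx]
        have hnf : ∀ t : ℂ, (Np P ^ f) ^ t = (Np P ^ t) ^ f := by
          intro t
          have hnn : ∃ n : ℕ, Np P = n := by
            obtain ⟨n, hn⟩ := Int.eq_ofNat_of_zero_le (np_nonneg P)
            exact ⟨n, by unfold Np; rw [hn]; push_cast; rfl⟩
          obtain ⟨n, hn⟩ := hnn
          rw [hn]
          exact nat_pow_cpow n f t
        rw [hnf, hnf, hN2, hX]
        ring
      · rw [hset, g3 (xc d P) ((starRingEnd ℂ) (xc d P)) X, finprod_eq_prod_of_fintype]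
        exact Finset.prod_congr rfl fun χ _ => (hcf χ).symm
  -- absolute convergence
  have hgood : ∀ u : HeightOneSpectrum (𝓞 F), GoodF (j d) (fun i => j (b i)) F u →
      ∃ P ∈ KF.TT d b, below u = eK j P := by
    intro u hu
    obtain ⟨P, hP⟩ := (eK j).surjective (below u)
    refine ⟨P, ?_, hP.symm⟩
    rw [good_iff j, hP]
    exact (goodF_iff _ _ u).1 hu
  have hmul : Multipliable (fun v : {v // GoodF (j d) (fun i => j (b i)) F v} =>
      (KF.factor D v.1 s)⁻¹) := by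
    have h := hMUL F {u | GoodF (j d) (fun i => j (b i)) F u} (fun u => ((tr D u : ℤ) : ℝ))
      (fun u hu => by
        obtain ⟨P, hP, hPu⟩ := hgood u hu
        exact (hloc P hP).2.1 u hPu) s hs
    refine h.congr fun u => ?_
    unfold KF.factor
    push_cast
    rfl
  obtain ⟨p, hp⟩ := hmul
  -- the fibres
  let g : {v // GoodF (j d) (fun i => j (b i)) F v} → {P : HeightOneSpectrum Ei // P ∈ KF.TT d b} :=
    fun u => ⟨(eK j).symm (below u.1), by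
      rw [good_iff j, Equiv.apply_symm_apply]
      exact (goodF_iff _ _ u.1).1 u.2⟩
  have hg : ∀ u P, g u = P ↔ below u.1 = eK j P.1 := by
    intro u P
    rw [Subtype.ext_iff, ← Equiv.symm_apply_eq]
  have h5 := (Equiv.hasProd_iff (Equiv.sigmaFiberEquiv g)
    (f := fun v : {v // GoodF (j d) (fun i => j (b i)) F v} => (KF.factor D v.1 s)⁻¹)
    (a := p)).2 hp
  have h6 : HasProd (fun P : {P : HeightOneSpectrum Ei // P ∈ KF.TT d b} =>
      ∏ χ, (cfac d b (l χ) P.1 s)⁻¹) p := by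
    refine h5.sigma fun P => ?_
    obtain ⟨k1, -, z, k3, k4⟩ := hloc P.1 P.2
    -- the fibre
    let ε : {u : {v // GoodF (j d) (fun i => j (b i)) F v} // g u = P} ≃
        {u : HeightOneSpectrum (𝓞 F) | below u = eK j P.1} :=
      { toFun := fun u => ⟨u.1.1, (hg u.1 P).1 u.2⟩
        invFun := fun u => ⟨⟨u.1, by
          rw [goodF_iff]
          have : below u.1 = eK j P.1 := u.2
          rw [this]
          exact (good_iff j d b P.1).1 P.2⟩, (hg _ P).2 u.2⟩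
        left_inv := fun u => rfl
        right_inv := fun u => rfl }
    have hft2 : Fintype {u : HeightOneSpectrum (𝓞 F) | below u = eK j P.1} := k1.fintype
    have hft3 : Fintype {u : {v // GoodF (j d) (fun i => j (b i)) F v} // g u = P} :=
      Fintype.ofEquiv _ ε.symm
    have h7 := hasProd_fintype (fun u : {u : {v // GoodF (j d) (fun i => j (b i)) F v} //
      g u = P} => (KF.factor D u.1.1 s)⁻¹)
    have h8 : ∏ u : {u : {v // GoodF (j d) (fun i => j (b i)) F v} // g u = P},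
        (KF.factor D u.1.1 s)⁻¹ = ∏ χ, (cfac d b (l χ) P.1 s)⁻¹ := by
      rw [Finset.prod_inv_distrib, Finset.prod_inv_distrib, ← k4]
      congr 1
      rw [Finset.prod_congr rfl fun u _ => k3 u.1.1 ((hg u.1 P).1 u.2), Finset.prod_const,
        Finset.card_univ, Fintype.card_congr ε, ← Nat.card_eq_fintype_card]
      rfl
    rw [h8] at h7
    exact h7
  rw [← h4.unique h6] at hp
  exact hp

end rz

section char
variable {K : Type} [Field K] [NumberField K] [IsCyclotomicExtension {3} ℚ K] (j : Ei ≃+* 𝓞 K)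
  {F : Type} [Field F] [NumberField F] [Algebra K F] {r : ℕ} {d : Ei} {b : Fin r → Ei}
  {θ : Fin r → F} {c : (F ≃ₐ[K] F) → Fin r → ZMod 3}

/-- the good exponents: `d b ^ l` is a cube times good parameters -/
def GoodL (d : Ei) (b : Fin r → Ei) (l : Fin r → ZMod 3) : Prop :=
  ∃ (n : ℕ) (π : Fin (n + 1) → Ei) (e : Fin (n + 1) → ZMod 3) (c : Ei), Dt π e ∧ Ker π e ∧
    ¬ (9 : ℤ) ∣ nr (pD π e) - 1 ∧ c ≠ 0 ∧ d * ∏ i, b i ^ (l i).val = c ^ 3 * pD π e

lemma fin_l {l : Fin r → ZMod 3} (h : GoodL d b l) :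
    Finite (E (((j d : 𝓞 K) : K) * ∏ i, ((j (b i) : 𝓞 K) : K) ^ (l i).val)).toAffine.Point := by
  have hne : ∀ x : Ei, x ≠ 0 → ((j x : 𝓞 K) : K) ≠ 0 := by
    intro x hx h
    have h1 : j x = 0 := by exact_mod_cast h
    exact hx ((map_eq_zero_iff j j.injective).1 h1)
  obtain ⟨n, π, e, c', h1, h2, h3, hc', h4⟩ := h
  have h5 : ((j d : 𝓞 K) : K) * ∏ i, ((j (b i) : 𝓞 K) : K) ^ (l i).val =
      ((j c' : 𝓞 K) : K) ^ 3 * ((j (pD π e) : 𝓞 K) : K) := by
    have h6 : j d * ∏ i, j (b i) ^ (l i).val = j c' ^ 3 * j (pD π e) := by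
      rw [← map_pow, ← map_mul, ← h4, map_mul, map_prod]
      simp only [map_pow]
    have h7 := congrArg (algebraMap (𝓞 K) K) h6
    simp only [map_mul, map_prod, map_pow] at h7
    exact h7
  obtain ⟨-, -, k1, k2⟩ := base_all j (Or.inr ⟨n, π, e, h1, h2, h3, rfl⟩)
  exact fin_twist (hne c' hc') (hne _ k1) h5 k2

lemma hl_l (hd : d ≠ 0) (hb : ∀ i, b i ≠ 0) {l : Fin r → ZMod 3} (h : GoodL d b l) :
    HL (d * ∏ i, b i ^ (l i).val) (KF.TT d b) := by
  obtain ⟨n, π, e, c', h1, h2, h3, hc', h4⟩ := h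
  obtain ⟨H, k1, k2, k3⟩ := t_HL n π e h1 h2 h3 _ (TT_cofin hd hb)
  refine ⟨H, k1, k2, fun s hs => (k3 s hs).congr_fun fun P => ?_⟩
  obtain ⟨P, g1, g2, g3⟩ := P
  have g4 : ¬ rho P ∣ d * ∏ i, b i ^ (l i).val := by
    have hp := (rho_pq g1).prime
    intro h
    rcases hp.dvd_or_dvd h with h | h
    · exact g2 h
    · obtain ⟨i, -, hi⟩ := (hp.dvd_finsetProd_iff _).1 h
      exact g3 i (hp.dvd_of_dvd_pow hi)
  have g5 := xc_cube (D := d * ∏ i, b i ^ (l i).val) (d := pD π e) (b := 1) (c := c') (P := P) g1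
    (pD_cube h1 _ (rho_pq g1).prime) one_ne_zero hc' (by rw [one_pow, one_mul]; exact h4) g4
  show (1 - xc (d * ∏ i, b i ^ (l i).val) P * Np P ^ (-s))⁻¹ = _
  rw [g5]

lemma lf_l (hd : d ≠ 0) (hb : ∀ i, b i ≠ 0) {l : Fin r → ZMod 3} (h : GoodL d b l)
    (h' : GoodL d b (-l)) : ∃ L : ℂ → ℂ, Differentiable ℂ L ∧ L 1 ≠ 0 ∧
      ∀ s : ℂ, 3 / 2 < s.re →
      HasProd (fun P : {P : HeightOneSpectrum Ei // P ∈ KF.TT d b} => (cfac d b l P.1 s)⁻¹) (L s) :=
  t_LC1 r d b (KF.TT d b) (fun P hP => hP) l (hl_l hd hb h) (hl_l hd hb h')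

/-- a single character -/
theorem char_one (hMULT : S_MULT) (hd : d ≠ 0) (hb : ∀ i, b i ≠ 0) [IsGalois K F]
    [Fintype (F ≃ₐ[K] F)]
    (hθ : ∀ i, θ i ^ 3 = algebraMap K F (j (b i) : K))
    (hcm : ∀ σ τ i, c (σ * τ) i = c σ i + c τ i) (hci : Function.Injective c)
    (hcθ : ∀ σ i, σ (θ i) = algebraMap K F ((j w : K) ^ (c σ i).val) * θ i)
    {l : Fin r → ZMod 3} (h : GoodL d b l) (h' : GoodL d b (-l)) {χ : (F ≃ₐ[K] F) →* ℂˣ}
    (hl : ∀ σ, (χ σ : ℂ) = tw (∑ x, l x * c σ x)) :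
    CharZ (j d) (fun i => j (b i)) F χ := by
  have hI : ((j w : 𝓞 K) : K) ^ 2 + ((j w : 𝓞 K) : K) + 1 = 0 := by
    have hww : (w : Ei) ^ 2 + w + 1 = 0 := by decide
    have h1 : (j w) ^ 2 + j w + 1 = 0 := by
      rw [← map_pow, ← map_one j, ← map_add, ← map_add, hww, map_zero]
    exact_mod_cast congrArg (algebraMap (𝓞 K) K) h1
  have hne : ∀ x : Ei, x ≠ 0 → ((j x : 𝓞 K) : K) ≠ 0 := by
    intro x hx h
    have h1 : j x = 0 := by exact_mod_cast h
    exact hx ((map_eq_zero_iff j j.injective).1 h1)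
  refine ⟨fun P => ?_, fun φ hφ => ?_⟩
  · have h1 := hMULT K F _ hI r (fun i => ((j (b i) : 𝓞 K) : K)) θ c (fun i => hne _ (hb i)) hθ hcm
      hci hcθ ((j d : 𝓞 K) : K) (hne d hd) l (fin_l j h) (fin_l j h') P
    rw [← h1]
    refine Finset.sum_congr rfl fun σ _ => ?_
    have h2 : ((χ σ)⁻¹ : ℂˣ).val = tw (-∑ i, l i * c σ i) := by
      rw [Units.val_inv_eq_inv_val, hl]
      exact inv_eq_of_mul_eq_one_right (Pool.Agent.H451.BB.tw_neg _)
    rw [h2]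
    rfl
  · obtain ⟨L, h1, h2, h3⟩ := lf_l hd hb h h'
    refine ⟨L, h1, h2, fun s hs => ?_⟩
    have h5 := (Equiv.hasProd_iff (eG j d b)
      (f := fun v : {v // GoodK (j d) (fun i => j (b i)) v} =>
        (1 - (tr (j d) v.1 : ℂ) * (Ideal.absNorm v.1.asIdeal : ℂ) ^ (-s) * (χ (φ v)⁻¹).val +
          (Ideal.absNorm v.1.asIdeal : ℂ) ^ (1 - 2 * s) * (χ (φ v)⁻¹).val ^ 2)⁻¹) (a := L s)).1
    apply h5
    refine (h3 s hs).congr_fun fun P => ?_
    obtain ⟨P, hP⟩ := P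
    have hv := hφ (eG j d b ⟨P, hP⟩)
    obtain ⟨ψ, hψ⟩ : ∃ ψ, ψ = φ (eG j d b ⟨P, hP⟩) := ⟨_, rfl⟩
    rw [← hψ] at hv
    have hv' : IsFrobenius (eK j P) F ψ := hv
    obtain ⟨e1, e2⟩ := t_TR K j d P hP.1 hP.2.1
    show (1 - (tr (j d) (eK j P) : ℂ) * (Ideal.absNorm (eK j P).asIdeal : ℂ) ^ (-s) *
        (χ (φ (eG j d b ⟨P, hP⟩))⁻¹).val +
          (Ideal.absNorm (eK j P).asIdeal : ℂ) ^ (1 - 2 * s) *
            (χ (φ (eG j d b ⟨P, hP⟩))⁻¹).val ^ 2)⁻¹ = _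
    rw [← hψ, e1, e2, chi_inv j t_FRB hθ hcm hcθ hP hv' hl]
    rfl

/-- the quotient of the `L`-functions over `F` and over `K` -/
theorem quot_main (hd : d ≠ 0) (hb : ∀ i, b i ≠ 0) [IsGalois K F]
    (hθ : ∀ i, θ i ^ 3 = algebraMap K F (j (b i) : K))
    (hcm : ∀ σ τ i, c (σ * τ) i = c σ i + c τ i) (hci : Function.Injective c)
    (hcθ : ∀ σ i, σ (θ i) = algebraMap K F ((j w : K) ^ (c σ i).val) * θ i)
    (h : ∀ l : Fin r → ZMod 3, l ≠ 0 → GoodL d b l) :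
    SameOrder (j d) (fun i => j (b i)) F := by
  -- the characters
  have hl0 : ∀ χ : (F ≃ₐ[K] F) →* ℂˣ, ∃ l : Fin r → ZMod 3, (χ = 1 ↔ l = 0) ∧ ∀ σ,
      (χ σ : ℂ) = tw (∑ x, l x * c σ x) := by
    intro χ
    have h0 : tw (0 : ZMod 3) = 1 := by
      unfold tw
      rw [ZMod.val_zero, pow_zero]
    by_cases h1 : χ = 1
    · refine ⟨0, by simp [h1], fun σ => ?_⟩
      rw [h1]
      simp [h0]
    · obtain ⟨l, hl⟩ := t_CHR (F ≃ₐ[K] F) r c hcm hci χ
      refine ⟨l, ?_, hl⟩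
      refine iff_of_false h1 fun h2 => h1 ?_
      ext σ
      rw [hl, h2]
      simp [h0]
  choose l hl1 hl using hl0
  have hfin : Finite ((F ≃ₐ[K] F) →* ℂˣ) := by
    refine Finite.of_injective l fun χ χ' h => ?_
    ext σ
    rw [hl χ σ, hl χ' σ, h]
  have hft : Fintype ((F ≃ₐ[K] F) →* ℂˣ) := Fintype.ofFinite _
  have hL : ∀ χ : (F ≃ₐ[K] F) →* ℂˣ, ∃ L : ℂ → ℂ, χ ≠ 1 → (Differentiable ℂ L ∧ L 1 ≠ 0 ∧
      ∀ s : ℂ, 3 / 2 < s.re →
      HasProd (fun P : {P : HeightOneSpectrum Ei // P ∈ KF.TT d b} => (cfac d b (l χ) P.1 s)⁻¹)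
        (L s)) := by
    intro χ
    by_cases h1 : χ = 1
    · exact ⟨fun _ => 1, fun h2 => absurd h1 h2⟩
    · have h2 : l χ ≠ 0 := fun h3 => h1 ((hl1 χ).2 h3)
      obtain ⟨L, g1, g2, g3⟩ := lf_l hd hb (h _ h2) (h _ (neg_ne_zero.2 h2))
      exact ⟨L, fun _ => ⟨g1, g2, g3⟩⟩
  choose L hL using hL
  refine ⟨fun s => ∏ χ ∈ Finset.univ.erase 1, L χ s, ?_, ?_, ?_⟩
  · exact Differentiable.fun_finsetProd fun χ hχ => (hL χ (Finset.ne_of_mem_erase hχ)).1
  · exact Finset.prod_ne_zero_iff.2 fun χ hχ => (hL χ (Finset.ne_of_mem_erase hχ)).2.1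
  intro s hs
  -- the function over `K`
  have hbound : ∀ v : HeightOneSpectrum (𝓞 K), v ∈ {v | GoodK (j d) (fun i => j (b i)) v} →
      ((tr (j d) v : ℤ) : ℝ) ^ 2 ≤ 4 * (Ideal.absNorm v.asIdeal : ℝ) := by
    intro v hv
    obtain ⟨P, rfl⟩ := (eK j).surjective v
    have hP := (good_iff j d b P).2 hv
    obtain ⟨e1, e2⟩ := t_TR K j d P hP.1 hP.2.1
    have hxx := xc_sq hP.1 hP.2.1
    have a2 : ((tr (j d) (eK j P) : ℤ) : ℂ) = ((2 * (xc d P).re : ℝ) : ℂ) := by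
      rw [e2, Complex.add_conj]
    have a3 : ((tr (j d) (eK j P) : ℤ) : ℝ) = 2 * (xc d P).re := by exact_mod_cast a2
    have a4 : (xc d P).re ^ 2 ≤ Complex.normSq (xc d P) := by
      rw [Complex.normSq_apply]
      nlinarith [mul_self_nonneg (xc d P).im]
    have a5 : ((Complex.normSq (xc d P) : ℝ) : ℂ) =
        ((Ideal.absNorm (eK j P).asIdeal : ℝ) : ℂ) := by
      rw [Complex.normSq_eq_conj_mul_self, mul_comm _ (xc d P), hxx, Complex.ofReal_natCast, e1]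
    have a6 : Complex.normSq (xc d P) = (Ideal.absNorm (eK j P).asIdeal : ℝ) := by
      exact_mod_cast a5
    rw [a3, ← a6]
    nlinarith
  have hmul : Multipliable (fun v : {v // GoodK (j d) (fun i => j (b i)) v} =>
      (KF.factor (j d) v.1 s)⁻¹) := by
    have h := t_MUL K {v | GoodK (j d) (fun i => j (b i)) v} (fun v => ((tr (j d) v : ℤ) : ℝ))
      hbound s hs
    refine h.congr fun u => ?_
    unfold KF.factor
    push_cast
    rfl
  obtain ⟨z, hz⟩ := hmul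
  refine ⟨z, hz, ?_⟩
  refine rz_core j t_TR t_TRF t_EXF t_FRB t_UNR t_LOC t_MUL hθ hcm hci hcθ l hl s hs _ ?_
  have h1 : HasProd (fun P : {P : HeightOneSpectrum Ei // P ∈ KF.TT d b} =>
      ∏ χ ∈ Finset.univ.erase 1, (cfac d b (l χ) P.1 s)⁻¹) (∏ χ ∈ Finset.univ.erase 1, L χ s) :=
    hasProd_prod fun χ hχ => (hL χ (Finset.ne_of_mem_erase hχ)).2.2 s hs
  have h2 : HasProd (fun P : {P : HeightOneSpectrum Ei // P ∈ KF.TT d b} =>
      (cfac d b (l 1) P.1 s)⁻¹) z := by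
    have h5 := (Equiv.hasProd_iff (eG j d b)
      (f := fun v : {v // GoodK (j d) (fun i => j (b i)) v} => (KF.factor (j d) v.1 s)⁻¹)
      (a := z)).2 hz
    refine h5.congr_fun fun P => ?_
    obtain ⟨P, hP⟩ := P
    obtain ⟨e1, e2⟩ := t_TR K j d P hP.1 hP.2.1
    show (cfac d b (l 1) P s)⁻¹ = (KF.factor (j d) (eK j P) s)⁻¹
    have h0 : tw (0 : ZMod 3) = 1 := by
      unfold tw
      rw [ZMod.val_zero, pow_zero]
    unfold KF.factor cfac
    rw [(hl1 1).1 rfl, e1, e2]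
    simp [h0]
  have h3 := h2.mul h1
  refine h3.congr_fun fun P => ?_
  exact (Finset.mul_prod_erase Finset.univ (fun χ => (cfac d b (l χ) P.1 s)⁻¹)
    (Finset.mem_univ 1)).symm

/-- everything for `F` if all `l ≠ 0` are good -/
theorem same_all (hMULT : S_MULT) (hSAME : S_SAME) (hd : d ≠ 0) (hb : ∀ i, b i ≠ 0)
    (h : ∀ l : Fin r → ZMod 3, l ≠ 0 → GoodL d b l)
    (hF : IsKummer (fun i => j (b i)) F) :
    SameRank (j d) F ∧ SameOrder (j d) (fun i => j (b i)) F ∧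
      ∀ [Fintype (F ≃ₐ[K] F)] (χ : (F ≃ₐ[K] F) →* ℂˣ), χ ≠ 1 →
        CharZ (j d) (fun i => j (b i)) F χ := by
  obtain ⟨θ, hθ, hadj⟩ := hF
  have hI : ((j w : 𝓞 K) : K) ^ 2 + ((j w : 𝓞 K) : K) + 1 = 0 := by
    have hww : (w : Ei) ^ 2 + w + 1 = 0 := by decide
    have h1 : (j w) ^ 2 + j w + 1 = 0 := by
      rw [← map_pow, ← map_one j, ← map_add, ← map_add, hww, map_zero]
    exact_mod_cast congrArg (algebraMap (𝓞 K) K) h1
  have hne : ∀ x : Ei, x ≠ 0 → ((j x : 𝓞 K) : K) ≠ 0 := by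
    intro x hx h
    have h1 : j x = 0 := by exact_mod_cast h
    exact hx ((map_eq_zero_iff j j.injective).1 h1)
  obtain ⟨hfd, hgal, c, hcm, hci, hcθ⟩ := t_GAL K F _ hI r (fun i => ((j (b i) : 𝓞 K) : K)) θ
    (fun i => hne _ (hb i)) hθ hadj
  refine ⟨?_, quot_main j hd hb hθ hcm hci hcθ h, ?_⟩
  · exact hSAME K F _ hI r (fun i => ((j (b i) : 𝓞 K) : K)) θ c (fun i => hne _ (hb i)) hθ hcm hci
      hcθ ((j d : 𝓞 K) : K) (hne d hd) fun l hl => fin_l j (h l hl)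
  · intro _ χ hχ
    obtain ⟨l, hl⟩ := t_CHR (F ≃ₐ[K] F) r c hcm hci χ
    have hl0 : l ≠ 0 := by
      rintro rfl
      apply hχ
      have h0 : tw (0 : ZMod 3) = 1 := by
        unfold tw
        rw [ZMod.val_zero, pow_zero]
      ext σ
      rw [hl]
      simp [h0]
    exact char_one j hMULT hd hb hθ hcm hci hcθ (h l hl0) (h _ (neg_ne_zero.2 hl0)) hl

end char

end Pool.Agent.H451.KG
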