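import Mathlib
import Pool.Agent.H451.KF.Fix

/-!
# Almost all twists: the second moment
-/

set_option autoImplicit false
set_option linter.unusedVariables false
set_option linter.unusedSectionVars false

namespace Pool.Agent.H451.KG

open NumberField IsDedekindDomain
open scoped Classical

open Pool.Agent.Y692.QS (Ei w toC nr)
open Pool.Agent.Y715.T.RecG (Pq)
open Pool.Agent.H451.KF
open Pool.Agent.H451.JL
open Pool.Agent.Y703.XK (SS c9)

section law
variable {r : ℕ} {U : Finset Ei} {e : Fin r → Ei → ℕ}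

/-- good exponents of a set -/
def gS (e : Fin r → Ei → ℕ) (U : Finset Ei) (S : Finset Ei) (l : Fin r → ZMod 3) : Prop :=
  nW (wF e U l) (S ∪ U) = 3

/-- the joint law for a set of exponents -/
theorem law_T (hU : ∀ π ∈ U, Pq π)
    (hind : ∀ l l' : Fin r → ZMod 3, l ≠ l' → ∃ u ∈ U, wF e U l u ≠ wF e U l' u)
    (T : Finset (Fin r → ZMod 3)) :
    Filter.Tendsto (fun X : ℕ =>
      ((((SS X).filter (CondJ U R47)).filter fun S => ∀ l ∈ T, gS e U S l).card : ℝ) /
        (((SS X).filter (CondJ U R47)).card : ℝ)) Filter.atTop (nhds (c9 ^ T.card)) := by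
  obtain ⟨φ⟩ : Nonempty (Fin T.card ≃ T) := ⟨(Finset.equivFinOfCardEq rfl).symm⟩
  have h47 : 4 ∈ R47 ∨ 7 ∈ R47 := Or.inl (by show ¬ 4 % 9 = 1; norm_num)
  have hlim := t_DQJ' T.card (fun i => wF e U (φ i : Fin r → ZMod 3)) U R47 hU
    (fun i π hπ => by unfold wF; rw [if_neg hπ])
    (fun i i' hii => hind _ _ fun h => hii (φ.injective (Subtype.ext h))) h47
  refine hlim.congr fun X => ?_
  congr 2
  rw [Finset.filter_filter]
  congr 1
  ext S
  simp only [Finset.mem_filter]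
  refine and_congr_right fun _ => and_congr_right fun _ => ?_
  unfold GW gS
  constructor
  · intro h l hl
    obtain ⟨i, hi⟩ := φ.surjective ⟨l, hl⟩
    have h3 : nW (wF e U (φ i : Fin r → ZMod 3)) (S ∪ U) = 3 := h i
    rw [hi] at h3
    exact h3
  · intro h i
    exact h _ (φ i).2

/-- the number of the exponents `l` such that `l` and `-l` are good -/
noncomputable def NN (e : Fin r → Ei → ℕ) (U S : Finset Ei) : ℕ :=
  (Finset.univ.filter fun l : Fin r → ZMod 3 => gS e U S l ∧ gS e U S (-l)).card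

theorem second (hU : ∀ π ∈ U, Pq π)
    (hind : ∀ l l' : Fin r → ZMod 3, l ≠ l' → ∃ u ∈ U, wF e U l u ≠ wF e U l' u) :
    ∃ X₀ : ℕ, ∀ X : ℕ, X₀ ≤ X → ∑ S ∈ (SS X).filter (CondJ U R47),
      ((NN e U S : ℝ) - 3 ^ r * c9 ^ 2) ^ 2 ≤
        5 * 3 ^ r * (((SS X).filter (CondJ U R47)).card : ℝ) := by
  obtain ⟨-, c1, c2, c3, -⟩ := Pool.Agent.Y703.XL.t_C9
  obtain ⟨n, hn⟩ : ∃ n : ℝ, n = 3 ^ r := ⟨_, rfl⟩
  have hn1 : 1 ≤ n := by rw [hn]; exact one_le_pow₀ (by norm_num)
  have hcard : (Fintype.card (Fin r → ZMod 3) : ℝ) = n := by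
    rw [Fintype.card_fun, ZMod.card, Fintype.card_fin, hn]
    push_cast
    rfl
  -- the sets of exponents
  obtain ⟨T1, hT1⟩ : ∃ T1 : (Fin r → ZMod 3) → Finset (Fin r → ZMod 3),
      T1 = fun l => {l, -l} := ⟨_, rfl⟩
  obtain ⟨T2, hT2⟩ : ∃ T2 : (Fin r → ZMod 3) → (Fin r → ZMod 3) → Finset (Fin r → ZMod 3),
      T2 = fun l l' => {l, -l, l', -l'} := ⟨_, rfl⟩
  obtain ⟨sh, hsh⟩ : ∃ sh : Finset (Fin r → ZMod 3) → ℕ → ℝ, sh = fun T X =>
      ((((SS X).filter (CondJ U R47)).filter fun S => ∀ l ∈ T, gS e U S l).card : ℝ) /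
        (((SS X).filter (CondJ U R47)).card : ℝ) := ⟨_, rfl⟩
  have hlaw : ∀ T, Filter.Tendsto (sh T) Filter.atTop (nhds (c9 ^ T.card)) := by
    intro T
    rw [hsh]
    exact law_T hU hind T
  -- the limit
  obtain ⟨V, hV⟩ : ∃ V : ℝ, V = ∑ l, ∑ l', c9 ^ (T2 l l').card -
      2 * (n * c9 ^ 2) * ∑ l, c9 ^ (T1 l).card + (n * c9 ^ 2) ^ 2 := ⟨_, rfl⟩
  have hlimV : Filter.Tendsto (fun X => ∑ l, ∑ l', sh (T2 l l') X -
      2 * (n * c9 ^ 2) * ∑ l, sh (T1 l) X + (n * c9 ^ 2) ^ 2) Filter.atTop (nhds V) := by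
    rw [hV]
    refine Filter.Tendsto.add_const _ (Filter.Tendsto.sub ?_ (Filter.Tendsto.const_mul _ ?_))
    · exact tendsto_finsetSum _ fun l _ => tendsto_finsetSum _ fun l' _ => hlaw _
    · exact tendsto_finsetSum _ fun l _ => hlaw _
  have hVle : V ≤ 4 * n := by
    have g1 : n * c9 ^ 2 ≤ ∑ l, c9 ^ (T1 l).card := by
      rw [← hcard, ← nsmul_eq_mul, ← Finset.card_univ, ← Finset.sum_const]
      refine Finset.sum_le_sum fun l _ => ?_
      refine pow_le_pow_of_le_one c1.le c2.le ?_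
      rw [hT1]
      exact Finset.card_le_two
    have g2 : ∀ l l', c9 ^ (T2 l l').card ≤ c9 ^ 4 + ((if l = 0 then (1 : ℝ) else 0) +
        (if l' = 0 then (1 : ℝ) else 0) + (if l' = l then (1 : ℝ) else 0) +
        (if l' = -l then (1 : ℝ) else 0)) := by
      intro l l'
      have p1 : ∀ k : ℕ, c9 ^ k ≤ 1 := fun k => pow_le_one₀ c1.le c2.le
      have p2 : 0 ≤ c9 ^ 4 := by positivity
      by_cases h1 : l = 0
      · rw [if_pos h1]
        refine (p1 _).trans ?_
        split_ifs <;> linarith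
      by_cases h2 : l' = 0
      · rw [if_pos h2]
        refine (p1 _).trans ?_
        split_ifs <;> linarith
      by_cases h3 : l' = l
      · rw [if_pos h3]
        refine (p1 _).trans ?_
        split_ifs <;> linarith
      by_cases h4 : l' = -l
      · rw [if_pos h4]
        refine (p1 _).trans ?_
        split_ifs <;> linarith
      rw [if_neg h1, if_neg h2, if_neg h3, if_neg h4]
      have hneg : ∀ x : Fin r → ZMod 3, x ≠ 0 → x ≠ -x := by
        intro x hx hxx
        apply hx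
        funext i
        have h5 : x i = -x i := congrFun hxx i
        have h6 : ∀ t : ZMod 3, t = -t → t = 0 := by decide
        exact h6 _ h5
      have hcd : (T2 l l').card = 4 := by
        rw [hT2]
        show ({l, -l, l', -l'} : Finset (Fin r → ZMod 3)).card = 4
        rw [Finset.card_insert_of_notMem, Finset.card_insert_of_notMem,
          Finset.card_insert_of_notMem, Finset.card_singleton]
        · rw [Finset.mem_singleton]
          exact hneg l' h2
        · rw [Finset.mem_insert, Finset.mem_singleton]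
          rintro (h5 | h5)
          · exact h4 h5.symm
          · exact h3 (neg_injective h5).symm
        · rw [Finset.mem_insert, Finset.mem_insert, Finset.mem_singleton]
          rintro (h5 | h5 | h5)
          · exact hneg l h1 h5
          · exact h3 h5.symm
          · apply h4
            rw [h5, neg_neg]
      rw [hcd]
      norm_num
    have g3 : ∑ l, ∑ l', c9 ^ (T2 l l').card ≤ n ^ 2 * c9 ^ 4 + 4 * n := by
      refine (Finset.sum_le_sum fun l _ => Finset.sum_le_sum fun l' _ => g2 l l').trans ?_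
      simp only [Finset.sum_add_distrib, Finset.sum_const, Finset.card_univ, nsmul_eq_mul,
        Finset.sum_ite_eq', Finset.mem_univ, if_true, hcard, mul_one, mul_ite, mul_zero]
      apply le_of_eq
      ring
    have g4 : 0 ≤ n * c9 ^ 2 := by positivity
    rw [hV]
    nlinarith [mul_le_mul_of_nonneg_left g1 g4]
  have hlt : V < 5 * n := by linarith
  obtain ⟨X₀, hX₀⟩ := Filter.eventually_atTop.1 (hlimV.eventually (gt_mem_nhds hlt))
  refine ⟨X₀, fun X hX => ?_⟩
  have h1 := hX₀ X hX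
  obtain ⟨A, hA⟩ : ∃ A : Finset (Finset Ei), A = (SS X).filter (CondJ U R47) := ⟨_, rfl⟩
  rw [← hn, ← hA]
  rcases A.eq_empty_or_nonempty with h0 | h0
  · rw [h0]
    simp
  have hApos : (0 : ℝ) < A.card := by exact_mod_cast h0.card_pos
  have hsA : ∀ T, sh T X * A.card = ∑ S ∈ A, (if ∀ l ∈ T, gS e U S l then (1 : ℝ) else 0) := by
    intro T
    rw [hsh]
    show (((((SS X).filter (CondJ U R47)).filter fun S => ∀ l ∈ T, gS e U S l).card : ℝ) /
        (((SS X).filter (CondJ U R47)).card : ℝ)) * A.card = _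
    rw [← hA, div_mul_cancel₀ _ hApos.ne', Finset.card_filter]
    push_cast
    rfl
  have hN1 : ∀ S, (NN e U S : ℝ) = ∑ l, (if ∀ x ∈ T1 l, gS e U S x then (1 : ℝ) else 0) := by
    intro S
    unfold NN
    rw [Finset.card_filter]
    push_cast
    refine Finset.sum_congr rfl fun l _ => ?_
    congr 1
    rw [hT1]
    simp
  have hN2 : ∀ S, (NN e U S : ℝ) ^ 2 =
      ∑ l, ∑ l', (if ∀ x ∈ T2 l l', gS e U S x then (1 : ℝ) else 0) := by
    intro S
    rw [hN1, sq, Finset.sum_mul_sum]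
    refine Finset.sum_congr rfl fun l _ => Finset.sum_congr rfl fun l' _ => ?_
    have hm : ∀ (a b c : Prop) (_ : Decidable a) (_ : Decidable b) (_ : Decidable c),
        (a ∧ b ↔ c) → (if a then (1 : ℝ) else 0) * (if b then (1 : ℝ) else 0) =
        if c then 1 else 0 := by
      intro a b c _ _ _ hc
      by_cases h : a <;> by_cases h' : b <;> simp [h, h', ← hc]
    refine hm _ _ _ _ _ _ ?_
    rw [hT1, hT2]
    simp [and_assoc]
  have hkey : ∑ S ∈ A, ((NN e U S : ℝ) - n * c9 ^ 2) ^ 2 =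
      (∑ l, ∑ l', sh (T2 l l') X - 2 * (n * c9 ^ 2) * ∑ l, sh (T1 l) X +
        (n * c9 ^ 2) ^ 2) * A.card := by
    have e1 : ∀ S, ((NN e U S : ℝ) - n * c9 ^ 2) ^ 2 =
        (NN e U S : ℝ) ^ 2 - 2 * (n * c9 ^ 2) * NN e U S + (n * c9 ^ 2) ^ 2 := fun S => by ring
    rw [Finset.sum_congr rfl fun S _ => e1 S, Finset.sum_add_distrib, Finset.sum_sub_distrib,
      ← Finset.mul_sum, Finset.sum_const, nsmul_eq_mul, add_mul, sub_mul, mul_assoc (2 * (n * c9 ^ 2)),
      Finset.sum_mul, Finset.sum_mul, mul_comm (A.card : ℝ)]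
    congr 2
    · rw [Finset.sum_congr rfl fun S _ => hN2 S, Finset.sum_comm]
      refine Finset.sum_congr rfl fun l _ => ?_
      rw [Finset.sum_comm, Finset.sum_mul]
      exact Finset.sum_congr rfl fun l' _ => (hsA _).symm
    · congr 1
      rw [Finset.sum_congr rfl fun S _ => hN1 S, Finset.sum_comm]
      exact Finset.sum_congr rfl fun l _ => (hsA _).symm
  rw [hkey]
  exact mul_le_mul_of_nonneg_right h1.le hApos.le

/-- few sets have few good pairs of exponents -/
theorem cheb (hU : ∀ π ∈ U, Pq π)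
    (hind : ∀ l l' : Fin r → ZMod 3, l ≠ l' → ∃ u ∈ U, wF e U l u ≠ wF e U l' u) {δ : ℝ}
    (hδ : 0 < δ) :
    ∃ X₀ : ℕ, ∀ X : ℕ, X₀ ≤ X →
      ((((SS X).filter (CondJ U R47)).filter fun S =>
        (NN e U S : ℝ) < (0.408 - δ) * 3 ^ r).card : ℝ) ≤
      5 / (δ ^ 2 * 3 ^ r) * (((SS X).filter (CondJ U R47)).card : ℝ) := by
  obtain ⟨X₀, hX⟩ := second hU hind
  obtain ⟨-, c1, c2, c3, -⟩ := Pool.Agent.Y703.XL.t_C9
  refine ⟨X₀, fun X h => ?_⟩
  have h1 := hX X h
  obtain ⟨A, hA⟩ : ∃ A : Finset (Finset Ei), A = (SS X).filter (CondJ U R47) := ⟨_, rfl⟩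
  obtain ⟨n, hn⟩ : ∃ n : ℝ, n = 3 ^ r := ⟨_, rfl⟩
  have hn1 : 1 ≤ n := by rw [hn]; exact one_le_pow₀ (by norm_num)
  rw [← hA] at h1 ⊢
  rw [← hn] at h1 ⊢
  have h2 : ((A.filter fun S => (NN e U S : ℝ) < (0.408 - δ) * n).card : ℝ) * (δ * n) ^ 2 ≤
      ∑ S ∈ A, ((NN e U S : ℝ) - n * c9 ^ 2) ^ 2 := by
    rw [← nsmul_eq_mul, ← Finset.sum_const]
    refine (Finset.sum_le_sum fun S hS => ?_).trans
      (Finset.sum_le_sum_of_subset_of_nonneg (Finset.filter_subset _ _) fun S _ _ => sq_nonneg _)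
    have h3 := (Finset.mem_filter.1 hS).2
    have h4 : (0.408 : ℝ) < c9 ^ 2 := by nlinarith
    have h5 : δ * n ≤ n * c9 ^ 2 - NN e U S := by nlinarith
    rw [← neg_sub, neg_sq]
    exact pow_le_pow_left₀ (by positivity) h5 2
  have h6 : (0 : ℝ) < (δ * n) ^ 2 := by positivity
  have h7 : ((A.filter fun S => (NN e U S : ℝ) < (0.408 - δ) * n).card : ℝ) ≤
      (5 * n * A.card) / (δ * n) ^ 2 := by
    rw [le_div_iff₀ h6]
    exact h2.trans h1
  refine h7.trans (le_of_eq ?_)
  field_simp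

end law

end Pool.Agent.H451.KG
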