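import Mathlib
import Pool.Agent.H451.KG.Core
import Pool.Agent.H451.KF.Fix

/-!
# Rank stability: given curves and random cubic extensions
-/

set_option autoImplicit false
set_option linter.unusedVariables false
set_option linter.unusedSectionVars false

namespace Pool.Agent.H451.KG

open NumberField IsDedekindDomain
open scoped Classical

open Pool.Agent.Y692.QS (Ei w toC nr)
open Pool.Agent.Y715.T.RecG (Pq)
open Pool.Agent.Y703.CT (ClsE Dt Ker pD)
open Pool.Agent.Y696.CTK (ClsK)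
open Pool.Agent.Y715.T.Rec (cs nn)
open Pool.Agent.H451.BB
open Pool.Agent.H451.KF
open Pool.Agent.H451.JL
open Pool.Agent.H451.CubT
open Pool.Agent.Y699.E (nrm nrm_cast nrm_mul nrm_one PD mem_PD PS pq_cop norm_le_of_dvd prm_mul)
open Pool.Agent.Y703.XK (SS c9)

section wt
variable {m : ℕ}

/-- the weights -/
noncomputable def wR (e : Fin m → Ei → ℕ) (U : Finset Ei) (i : Fin m) (l : JL.F) (ρ : Ei) : JL.F :=
  if ρ ∈ U then l * (e i ρ : JL.F) else 1

theorem factR {U S : Finset Ei} {e : Fin m → Ei → ℕ} (hd : Disjoint S U) (i : Fin m) {l : JL.F}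
    (hl : l ≠ 0) :
    (∏ u ∈ U, u ^ (e i u)) * (∏ π ∈ S, π) ^ l.val =
      (∏ u ∈ U, u ^ (e i u / 3)) ^ 3 * eD l (wR e U i l) (S ∪ U) := by
  have h1 : eD l (wR e U i l) (S ∪ U) = ∏ ρ ∈ S ∪ U, ρ ^ (l * wR e U i l ρ).val := by
    unfold eD sw
    rw [Finset.prod_filter]
    refine Finset.prod_congr rfl fun π _ => ?_
    by_cases h : wR e U i l π = 0
    · rw [if_neg (not_not.2 h), h, mul_zero, ZMod.val_zero, pow_zero]
    · rw [if_pos h]
  rw [h1, Finset.prod_union hd]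
  have h2 : ∏ ρ ∈ S, ρ ^ (l * wR e U i l ρ).val = (∏ π ∈ S, π) ^ l.val := by
    rw [← Finset.prod_pow]
    refine Finset.prod_congr rfl fun ρ hρ => ?_
    have h3 : ρ ∉ U := Finset.disjoint_left.1 hd hρ
    unfold wR
    rw [if_neg h3, mul_one]
  have hll0 : ∀ l : JL.F, l ≠ 0 → l * l = 1 := by decide
  have hll := hll0 l hl
  have h5 : ∏ u ∈ U, u ^ (e i u) =
      (∏ u ∈ U, u ^ (e i u / 3)) ^ 3 * ∏ u ∈ U, u ^ (l * wR e U i l u).val := by
    rw [← Finset.prod_pow, ← Finset.prod_mul_distrib]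
    refine Finset.prod_congr rfl fun u hu => ?_
    have h6 : (l * wR e U i l u).val = e i u % 3 := by
      unfold wR
      rw [if_pos hu, ← mul_assoc, hll, one_mul]
      exact ZMod.val_natCast 3 _
    rw [h6, ← pow_mul, ← pow_add]
    congr 1
    omega
  rw [h2, h5]
  ring

end wt

/-- the norm of a primary product of powers -/
theorem nr_prod_prm {U : Finset Ei} (hU : ∀ π ∈ U, Pq π) (f : Ei → ℕ) :
    nr (∏ u ∈ U, u ^ (f u)) % 3 = 1 := by
  apply nr_prm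
  have h2 : ∀ s ⊆ U, (3 : Ei) ∣ (∏ u ∈ s, u ^ (f u)) - 1 := by
    intro s
    induction s using Finset.induction_on with
    | empty => intro _; rw [Finset.prod_empty, sub_self]; exact dvd_zero _
    | insert i s hi ih =>
      intro hs
      rw [Finset.prod_insert hi]
      have e1 : i ^ (f i) * ∏ x ∈ s, x ^ (f x) - 1 =
        (i ^ (f i) - 1) * ∏ x ∈ s, x ^ (f x) + (∏ x ∈ s, x ^ (f x) - 1) := by ring
      rw [e1]
      refine dvd_add (Dvd.dvd.mul_right ?_ _)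
        (ih fun k hk => hs (Finset.mem_insert_of_mem hk))
      have h3 := sub_dvd_pow_sub_pow i 1 (f i)
      rw [one_pow] at h3
      exact ((hU i (hs (Finset.mem_insert_self i s))).three).trans h3
  exact h2 U (Finset.Subset.refl U)

section K
variable {K : Type} [Field K] [NumberField K] [IsCyclotomicExtension {3} ℚ K] (j : Ei ≃+* 𝓞 K)

theorem goodR {m : ℕ} {U : Finset Ei} {e : Fin m → Ei → ℕ}
    (hU : ∀ π ∈ U, Pq π) (hnrm : ∀ i, nrm (∏ u ∈ U, u ^ (e i u)) % 9 = 1) {S : Finset Ei}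
    (hS : ∀ π ∈ S, Pq π) (hd : Disjoint S U) (hn9 : ¬ (9 : ℤ) ∣ nr (∏ π ∈ S, π) - 1)
    (i : Fin m) (hG : ∀ l : JL.F, l ≠ 0 → nW (wR e U i l) (S ∪ U) = 3) (l : Fin 1 → ZMod 3)
    (hl : l ≠ 0) : GoodL (∏ u ∈ U, u ^ (e i u)) (fun _ : Fin 1 => ∏ π ∈ S, π) l := by
  have hl0 : l 0 ≠ 0 := by
    intro h
    apply hl
    funext x
    rw [Subsingleton.elim x 0, h]
    rfl
  obtain ⟨t, ht⟩ : ∃ t : JL.F, t = l 0 := ⟨_, rfl⟩
  have ht0 : t ≠ 0 := by rw [ht]; exact hl0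
  have hf := factR (e := e) hd i ht0
  have hlhs : (∏ u ∈ U, u ^ (e i u)) * ∏ x : Fin 1, (fun _ : Fin 1 => ∏ π ∈ S, π) x ^ (l x).val =
      (∏ u ∈ U, u ^ (e i u)) * (∏ π ∈ S, π) ^ t.val := by
    rw [Fin.prod_univ_one, ht]
  have hU0 : ∀ f : Ei → ℕ, ∏ u ∈ U, u ^ (f u) ≠ 0 := fun f =>
    Finset.prod_ne_zero_iff.2 fun u hu => pow_ne_zero _ (hU u hu).prime.ne_zero
  have hc9 : nr (∏ u ∈ U, u ^ (e i u / 3)) % 3 = 1 := nr_prod_prm hU _
  have hS3 : nr (∏ π ∈ S, π) % 3 = 1 := by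
    have := nr_prod_prm hS (fun _ => 1)
    simpa using this
  have hn : ¬ (9 : ℤ) ∣ nr (eD t (wR e U i t) (S ∪ U)) - 1 := by
    intro h9'
    apply hn9
    have hnm : ∀ x y : Ei, nr (x * y) = nr x * nr y := fun x y => by
      rw [← nrm_cast, ← nrm_cast, ← nrm_cast, nrm_mul]
      push_cast
      rfl
    have hnp : ∀ (x : Ei) (k : ℕ), nr (x ^ k) = nr x ^ k := by
      intro x k
      rw [← nrm_cast, ← nrm_cast, nrm_pow']
      push_cast
      rfl
    have h1 : nr ((∏ u ∈ U, u ^ (e i u)) * (∏ π ∈ S, π) ^ t.val) =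
        nr (∏ u ∈ U, u ^ (e i u / 3)) ^ 3 * nr (eD t (wR e U i t) (S ∪ U)) := by
      rw [hf, hnm, hnp]
    rw [hnm, hnp] at h1
    have h2 : nr (∏ u ∈ U, u ^ (e i u / 3)) ^ 3 % 9 = 1 := cube_mod hc9
    have h4 : nr (∏ u ∈ U, u ^ (e i u)) % 9 = 1 := by
      have := hnrm i
      rw [← nrm_cast]
      omega
    have h5 : nr (∏ π ∈ S, π) ^ t.val % 9 = 1 := by
      have h6 : (nr (∏ u ∈ U, u ^ (e i u)) * nr (∏ π ∈ S, π) ^ t.val) % 9 = 1 := by
        rw [h1, Int.mul_emod, h2]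
        omega
      rw [Int.mul_emod, h4, one_mul, Int.emod_emod_of_dvd _ (dvd_refl 9)] at h6
      exact h6
    have ht' : t = 1 ∨ t = 2 := by
      revert ht0
      clear hf hlhs h1 h5 h9' ht
      revert t
      decide
    rcases ht' with h | h
    · rw [h, show ZMod.val (1 : JL.F) = 1 from rfl, pow_one] at h5
      omega
    · rw [h, show ZMod.val (2 : JL.F) = 2 from rfl] at h5
      obtain ⟨q, hq⟩ : ∃ q, q = nr (∏ π ∈ S, π) := ⟨_, rfl⟩
      rw [← hq] at h5 hS3 ⊢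
      have h7 : (9 : ℤ) ∣ (q - 1) * (q + 1) := by
        have : (q - 1) * (q + 1) = q ^ 2 - 1 := by ring
        rw [this]
        omega
      have h8 : IsCoprime (9 : ℤ) (q + 1) := by
        rw [show (9 : ℤ) = 3 ^ 2 by norm_num]
        apply IsCoprime.pow_left
        rw [Int.isCoprime_iff_gcd_eq_one]
        have h9 : (q + 1) % 3 = 2 := by omega
        have h10 : Int.gcd 3 (q + 1) ∣ 3 := by
          have := Int.gcd_dvd_left (a := 3) (b := q + 1)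
          exact_mod_cast this
        rcases (Nat.dvd_prime Nat.prime_three).1 h10 with h11 | h11
        · exact h11
        · exfalso
          have h12 := Int.gcd_dvd_right (a := 3) (b := q + 1)
          rw [h11] at h12
          have : (3 : ℤ) ∣ q + 1 := by exact_mod_cast h12
          omega
      exact h8.dvd_of_dvd_mul_right h7
  rcases t_BASE (S ∪ U) (wR e U i t) t
      (fun π hπ => (Finset.mem_union.1 hπ).elim (hS π) (hU π)) ht0 (hG t ht0) hn with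
    h | ⟨n, π, e', h1, h2, h3, h4⟩
  · exfalso
    apply hn
    rw [h]
    have : nr (1 : Ei) = 1 := by decide
    rw [this, sub_self]
    exact dvd_zero _
  · exact ⟨n, π, e', _, h1, h2, h3, hU0 _, by rw [hlhs, ← h4]; exact hf⟩

end K

/-- rank stability for the curves `E_(a i)` over `F = K(∛β)` -/
def Stable {K : Type} [Field K] [NumberField K] {m : ℕ} (a : Fin m → 𝓞 K) (β : 𝓞 K) : Prop :=
  ∀ (F : Type) [Field F] [NumberField F] [Algebra K F], IsKummer (fun _ : Fin 1 => β) F →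
    ∀ i, SameRank (a i) F ∧ SameOrder (a i) (fun _ : Fin 1 => β) F ∧
      ∀ [Fintype (F ≃ₐ[K] F)] (χ : (F ≃ₐ[K] F) →* ℂˣ), χ ≠ 1 →
        CharZ (a i) (fun _ : Fin 1 => β) F χ

theorem finalR (hMULT : S_MULT) (hSAME : S_SAME) (K : Type) [Field K] [NumberField K]
    [IsCyclotomicExtension {3} ℚ K] (m : ℕ)
    (a : Fin m → 𝓞 K) (ha : ∀ i, (3 : 𝓞 K) ∣ a i - 1)
    (h9 : ∀ i, (9 : ℤ) ∣ Algebra.norm ℤ (a i) - 1) :
    (∃ c : ℝ, 0 < c ∧ ∃ X₀ : ℕ, ∀ X : ℕ, X₀ ≤ X →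
      c * X ≤ ({D : 𝓞 K | Algebra.norm ℤ D ≤ X ∧ AdmF a D}.ncard : ℝ)) ∧
    ∃ X₀ : ℕ, ∀ X : ℕ, X₀ ≤ X →
      0.639 ^ (2 * m) * ({D : 𝓞 K | Algebra.norm ℤ D ≤ X ∧ AdmF a D}.ncard : ℝ) ≤
        ({D : 𝓞 K | Algebra.norm ℤ D ≤ X ∧ AdmF a D ∧ Stable a D}.ncard : ℝ) := by
  obtain ⟨⟨j, hj⟩, -⟩ := Pool.Agent.Y455.CTK.jex K
  have ha' : ∀ i, (3 : Ei) ∣ j.symm (a i) - 1 := fun i =>
    Pool.Agent.Y696.CTK.three_dvd_symm j (ha i)
  obtain ⟨U, e, hU, hU1, hfac⟩ := t_PRM m (fun i => j.symm (a i)) ha'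
  have hadm := admF_iff j hj a hU hU1 hfac
  have hnrm : ∀ i, nrm (∏ u ∈ U, u ^ (e i u)) % 9 = 1 := by
    intro i
    rw [← hfac i, ← Pool.Agent.Y550.XK.NS.mod_iff, ← hj, RingEquiv.apply_symm_apply]
    exact h9 i
  have hcount : ∀ X : ℕ, {D : 𝓞 K | Algebra.norm ℤ D ≤ X ∧ AdmF a D}.ncard =
      ((SS X).filter (CondJ U R47)).card := by
    intro X
    rw [Pool.Agent.Y696.XK.img_ncard j hj X (fun D => ClsE D ∧ CondJ U R47 (PD D)) (AdmF a) hadm]
    exact Pool.Agent.Y550.XK.NS.card_eq X (CondJ U R47)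
  have h47 : 4 ∈ R47 ∨ 7 ∈ R47 := Or.inl (by show ¬ 4 % 9 = 1; norm_num)
  have hlow : ∃ c : ℝ, 0 < c ∧ ∃ X₀ : ℕ, ∀ X : ℕ, X₀ ≤ X →
      c * X ≤ ({D : 𝓞 K | Algebra.norm ℤ D ≤ X ∧ AdmF a D}.ncard : ℝ) := by
    obtain ⟨c, X₀, hc, hX⟩ := t_LOWJ U R47 hU h47
    refine ⟨c, hc, X₀, fun X h => ?_⟩
    rw [hcount X]
    exact hX X h
  refine ⟨hlow, ?_⟩
  -- the weights
  obtain ⟨W, hW⟩ : ∃ W : Finset (Ei → JL.F), W =
      (Finset.univ : Finset (Fin m × Fin 2)).image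
        (fun p => wR e U p.1 (if p.2 = 0 then 1 else 2)) := ⟨_, rfl⟩
  have hWmem : ∀ (i : Fin m) (l : JL.F), l ≠ 0 → wR e U i l ∈ W := by
    intro i l hl
    rw [hW, Finset.mem_image]
    have h1 : l = 1 ∨ l = 2 := by
      revert hl
      revert l
      decide
    rcases h1 with rfl | rfl
    · exact ⟨(i, 0), Finset.mem_univ _, by simp⟩
    · exact ⟨(i, 1), Finset.mem_univ _, by simp⟩
  obtain ⟨k, hk⟩ : ∃ k : ℕ, k = W.card := ⟨_, rfl⟩
  have hkC : k ≤ 2 * m := by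
    rw [hk, hW]
    refine Finset.card_image_le.trans ?_
    rw [Finset.card_univ, Fintype.card_prod, Fintype.card_fin, Fintype.card_fin, mul_comm]
  obtain ⟨φ⟩ : Nonempty (Fin k ≃ W) := ⟨(Finset.equivFinOfCardEq hk.symm).symm⟩
  obtain ⟨ww, hww⟩ : ∃ ww : Fin k → Ei → JL.F, ww = fun i => (φ i : Ei → JL.F) := ⟨_, rfl⟩
  have hmemW : ∀ i, ∃ x : Fin m × JL.F, wR e U x.1 x.2 = ww i := by
    intro i
    have h0 : ∀ g : Ei → JL.F, g ∈ W → ∃ x : Fin m × JL.F, wR e U x.1 x.2 = g := by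
      intro g hg
      rw [hW, Finset.mem_image] at hg
      obtain ⟨T, -, hT⟩ := hg
      exact ⟨(T.1, _), hT⟩
    obtain ⟨T, hT⟩ := h0 _ (φ i).2
    exact ⟨T, by rw [hT, hww]⟩
  have hw1 : ∀ i, ∀ π, π ∉ U → ww i π = 1 := by
    intro i π hπ
    obtain ⟨T, hT⟩ := hmemW i
    rw [← hT]
    unfold wR
    rw [if_neg hπ]
  have hw2 : ∀ i i', i ≠ i' → ∃ u ∈ U, ww i u ≠ ww i' u := by
    intro i i' hii
    by_contra hc
    push Not at hc
    apply hii
    apply φ.injective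
    apply Subtype.ext
    have h1 : ww i = ww i' := by
      funext u
      by_cases hu : u ∈ U
      · exact hc u hu
      · rw [hw1 i u hu, hw1 i' u hu]
    rw [hww] at h1
    exact h1
  have hlim := t_DQJ' k ww U R47 hU hw1 hw2 h47
  obtain ⟨-, c1, c2, c3, -⟩ := Pool.Agent.Y703.XL.t_C9
  have hmp : k = 0 ∨ 0 < k := Nat.eq_zero_or_pos k
  have hle : (0.639 : ℝ) ^ (2 * m) ≤ (0.639 : ℝ) ^ k :=
    pow_le_pow_of_le_one (by norm_num) (by norm_num) hkC
  obtain ⟨c, hc, X₀, hX0⟩ := hlow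
  -- the inclusion
  have hfinal : ∀ X : ℕ, 1 ≤ X → X₀ ≤ X →
      (0.639 : ℝ) ^ k * ({D : 𝓞 K | Algebra.norm ℤ D ≤ X ∧ AdmF a D}.ncard : ℝ) ≤
        (((SS X).filter fun S => CondJ U R47 S ∧ GW ww (S ∪ U)).card : ℝ) →
      (0.639 : ℝ) ^ (2 * m) * ({D : 𝓞 K | Algebra.norm ℤ D ≤ X ∧ AdmF a D}.ncard : ℝ) ≤
        ({D : 𝓞 K | Algebra.norm ℤ D ≤ X ∧ AdmF a D ∧ Stable a D}.ncard : ℝ) := by
    intro X a3 a1 h7
    have hpos : (0 : ℝ) < ({D : 𝓞 K | Algebra.norm ℤ D ≤ X ∧ AdmF a D}.ncard : ℝ) := by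
      refine lt_of_lt_of_le ?_ (hX0 X a1)
      have : (1 : ℝ) ≤ X := by exact_mod_cast a3
      positivity
    have hfin : {D : 𝓞 K | Algebra.norm ℤ D ≤ X ∧ AdmF a D}.Finite :=
      Set.finite_of_ncard_pos (by exact_mod_cast hpos)
    refine (mul_le_mul_of_nonneg_right hle hpos.le).trans (h7.trans ?_)
    have h8 : (((SS X).filter fun S => CondJ U R47 S ∧ GW ww (S ∪ U)).card : ℝ) =
        ({D : 𝓞 K | Algebra.norm ℤ D ≤ X ∧
          (AdmF a D ∧ GW ww (PD (j.symm D) ∪ U))}.ncard : ℝ) := by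
      rw [Pool.Agent.Y696.XK.img_ncard j hj X
        (fun D => ClsE D ∧ (CondJ U R47 (PD D) ∧ GW ww (PD D ∪ U)))
        (fun D => AdmF a D ∧ GW ww (PD (j.symm D) ∪ U)) fun D => by
          rw [RingEquiv.symm_apply_apply, ← hadm D]
          tauto]
      rw [Pool.Agent.Y550.XK.NS.card_eq X (fun S => CondJ U R47 S ∧ GW ww (S ∪ U))]
      congr
    rw [h8]
    have h9 : {D : 𝓞 K | Algebra.norm ℤ D ≤ X ∧ (AdmF a D ∧ GW ww (PD (j.symm D) ∪ U))} ⊆
        {D : 𝓞 K | Algebra.norm ℤ D ≤ X ∧ AdmF a D ∧ Stable a D} := by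
      rintro D ⟨b1, b2, b3⟩
      refine ⟨b1, b2, fun L _ _ _ hL i => ?_⟩
      obtain ⟨z, rfl⟩ := j.surjective D
      rw [RingEquiv.symm_apply_apply] at b3
      obtain ⟨hz, g1, g2⟩ := (hadm z).2 b2
      have hPS : PS z := ⟨hz.1, hz.2.1⟩
      have hpq : ∀ π ∈ PD z, Pq π := fun π hπ => ((mem_PD hPS.ne).1 hπ).1
      have hprod : ∏ π ∈ PD z, π = z := hPS.prod
      have hGi : ∀ l : JL.F, l ≠ 0 → nW (wR e U i l) (PD z ∪ U) = 3 := by
        intro l hl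
        obtain ⟨x, hx⟩ := φ.surjective ⟨_, hWmem i l hl⟩
        have h12 := b3 x
        have h13 : ww x = wR e U i l := by
          rw [hww]
          show ((φ x : W) : Ei → JL.F) = _
          rw [hx]
        rw [h13] at h12
        exact h12
      have h10 := goodR hU hnrm hpq g1 (by rw [hprod]; exact hz.2.2) i hGi
      rw [hprod, ← hfac i] at h10
      have hai : j (j.symm (a i)) = a i := j.apply_symm_apply (a i)
      have ha0 : j.symm (a i) ≠ 0 := by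
        rw [hfac i]
        exact Finset.prod_ne_zero_iff.2 fun u hu => pow_ne_zero _ (hU u hu).prime.ne_zero
      have h11 := same_all j hMULT hSAME (F := L) ha0 (fun _ => hPS.ne) h10 hL
      rw [hai] at h11
      exact h11
    exact_mod_cast Set.ncard_le_ncard h9 (hfin.subset fun D hD => ⟨hD.1, hD.2.1⟩)
  rcases hmp with h0 | hkp
  · -- no curve at all
    refine ⟨max X₀ 1, fun X hX => hfinal X (le_trans (le_max_right _ _) hX)
      (le_trans (le_max_left _ _) hX) ?_⟩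
    subst h0
    rw [pow_zero, one_mul, hcount X]
    apply le_of_eq
    congr 2
    ext S
    simp only [Finset.mem_filter]
    constructor
    · rintro ⟨g1, g2⟩
      exact ⟨g1, g2, fun i => i.elim0⟩
    · rintro ⟨g1, g2, -⟩
      exact ⟨g1, g2⟩
  · have hlt : (0.639 : ℝ) ^ k < c9 ^ k := pow_lt_pow_left₀ c3 (by norm_num) (by omega)
    have hev := hlim.eventually (lt_mem_nhds hlt)
    obtain ⟨X₁, hX1⟩ := Filter.eventually_atTop.1 hev
    refine ⟨max X₀ (max X₁ 1), fun X hXX => ?_⟩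
    have a1 : X₀ ≤ X := le_trans (le_max_left _ _) hXX
    have a2 : X₁ ≤ X := le_trans (le_trans (le_max_left _ _) (le_max_right _ _)) hXX
    have a3 : 1 ≤ X := le_trans (le_trans (le_max_right _ _) (le_max_right _ _)) hXX
    refine hfinal X a3 a1 ?_
    have hpos : (0 : ℝ) < ({D : 𝓞 K | Algebra.norm ℤ D ≤ X ∧ AdmF a D}.ncard : ℝ) := by
      refine lt_of_lt_of_le ?_ (hX0 X a1)
      have : (1 : ℝ) ≤ X := by exact_mod_cast a3
      positivity
    have h7 := hX1 X a2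
    rw [← hcount X, lt_div_iff₀ hpos] at h7
    exact h7.le

end Pool.Agent.H451.KG
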