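import Mathlib
import Pool.Agent.H451.KG.MCA
import Pool.Agent.H451.KG.RS

/-!
# Almost all twists over a given Kummer extension
-/

set_option autoImplicit false
set_option linter.unusedVariables false
set_option linter.unusedSectionVars false

namespace Pool.Agent.H451.KG

open NumberField IsDedekindDomain
open scoped Classical

open Pool.Agent.Y692.QS (Ei w toC nr)
open Pool.Agent.Y715.T.RecG (Pq)
open Pool.Agent.Y703.CT (ClsE Dt Ker pD)
open Pool.Agent.Y696.CTK (ClsK)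
open Pool.Agent.Y715.T.Rec (cs nn)
open Pool.Agent.H451.BB
open Pool.Agent.H451.KF
open Pool.Agent.H451.JL
open Pool.Agent.H451.CubT
open Pool.Agent.Y699.E (nrm nrm_cast nrm_mul nrm_one PD mem_PD PS pq_cop norm_le_of_dvd prm_mul)
open Pool.Agent.Y703.XK (SS c9)

lemma tw_zero' : tw (0 : ZMod 3) = 1 := by
  unfold tw
  rw [ZMod.val_zero, pow_zero]

lemma tw_inj {a b : ZMod 3} (h : tw a = tw b) : a = b := by
  have h1 : tw (a - b) = 1 := by
    have h2 : tw (a - b) * tw b = tw b := by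
      rw [← Pool.Agent.H451.BB.tw_add, sub_add_cancel, h]
    exact mul_right_cancel₀ (tw_ne b) (by rw [h2, one_mul])
  have hw : toC w ≠ 1 := by
    intro h3
    have h4 : toC w = toC 1 := by rw [h3, map_one]
    have h5 : (w : Ei) ≠ 1 := by decide
    have hinj : Function.Injective toC := Pool.Agent.Y692.QS.toC_inj
    exact h5 (hinj h4)
  have hw2 : toC w ^ 2 ≠ 1 := by
    intro h3
    have h4 : toC (w ^ 2) = toC 1 := by rw [map_pow, h3, map_one]
    have h5 : (w : Ei) ^ 2 ≠ 1 := by decide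
    exact h5 (Pool.Agent.Y692.QS.toC_inj h4)
  have h6 : ∀ t : ZMod 3, t = 0 ∨ t = 1 ∨ t = 2 := by decide
  rcases h6 (a - b) with h7 | h7 | h7
  · exact sub_eq_zero.1 h7
  · rw [h7] at h1
    exfalso
    apply hw
    unfold tw at h1
    rw [show ZMod.val (1 : ZMod 3) = 1 from rfl, pow_one] at h1
    exact h1
  · rw [h7] at h1
    exfalso
    apply hw2
    unfold tw at h1
    rw [show ZMod.val (2 : ZMod 3) = 2 from rfl] at h1
    exact h1

section K
variable {K : Type} [Field K] [NumberField K] [IsCyclotomicExtension {3} ℚ K] (j : Ei ≃+* 𝓞 K)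

/-- independence modulo cubes -/
def Indep {r : ℕ} (a : Fin r → 𝓞 K) : Prop :=
  ∀ l : Fin r → ZMod 3, (∃ c : K, ∏ i, (a i : K) ^ (l i).val = c ^ 3) → l = 0

theorem goodF_l (hj : ∀ z : Ei, Algebra.norm ℤ (j z) = nr z) {r : ℕ}
    (a : Fin r → 𝓞 K) (h9 : ∀ i, (9 : ℤ) ∣ Algebra.norm ℤ (a i) - 1)
    {U : Finset Ei} {e : Fin r → Ei → ℕ}
    (hU : ∀ π ∈ U, Pq π) (hfac : ∀ i, j.symm (a i) = ∏ u ∈ U, u ^ (e i u)) {S : Finset Ei}
    (hS : ∀ π ∈ S, Pq π) (hd : Disjoint S U) (hn9 : ¬ (9 : ℤ) ∣ nr (∏ π ∈ S, π) - 1)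
    (l : Fin r → ZMod 3) (hG : gS e U S l) :
    GoodL (∏ π ∈ S, π) (fun i => ∏ u ∈ U, u ^ (e i u)) l := by
  have hU0 : ∀ f : Ei → ℕ, ∏ u ∈ U, u ^ (f u) ≠ 0 := fun f =>
    Finset.prod_ne_zero_iff.2 fun u hu => pow_ne_zero _ (hU u hu).prime.ne_zero
  have hnrm : ∀ i, nrm (∏ u ∈ U, u ^ (e i u)) % 9 = 1 := by
    intro i
    rw [← hfac i, ← Pool.Agent.Y550.XK.NS.mod_iff, ← hj, RingEquiv.apply_symm_apply]
    exact h9 i
  have hf := factF (e := e) hU hd l
  have hc9 : nr (∏ u ∈ U, u ^ (eF e l u / 3)) % 3 = 1 := nr_prod_prm hU _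
  have hn : ¬ (9 : ℤ) ∣ nr (eD 1 (wF e U l) (S ∪ U)) - 1 := by
    intro h9'
    apply hn9
    have h1 : nr ((∏ π ∈ S, π) * ∏ i, (∏ u ∈ U, u ^ (e i u)) ^ (l i).val) =
        nr (∏ u ∈ U, u ^ (eF e l u / 3)) ^ 3 * nr (eD 1 (wF e U l) (S ∪ U)) := by
      rw [hf, ← hj, ← hj, ← hj, map_mul, map_pow, map_mul, map_pow]
    have h2 : nr (∏ u ∈ U, u ^ (eF e l u / 3)) ^ 3 % 9 = 1 := cube_mod hc9
    have h3 : nr ((∏ π ∈ S, π) * ∏ i, (∏ u ∈ U, u ^ (e i u)) ^ (l i).val) % 9 = 1 := by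
      rw [h1, Int.mul_emod, h2]
      omega
    have h4 : nrm (∏ i, (∏ u ∈ U, u ^ (e i u)) ^ (l i).val) % 9 = 1 := by
      have h5 : ∀ s : Finset (Fin r), nrm (∏ i ∈ s, (∏ u ∈ U, u ^ (e i u)) ^ (l i).val) % 9 = 1 := by
        intro s
        induction s using Finset.induction_on with
        | empty => rw [Finset.prod_empty, nrm_one]
        | insert i s hi ih =>
          rw [Finset.prod_insert hi, nrm_mul, Nat.mul_mod, ih, nrm_pow', Nat.pow_mod, hnrm i,
            one_pow]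
          norm_num
      exact h5 _
    rw [Pool.Agent.Y550.XK.NS.mod_iff]
    have h6 : nrm ((∏ π ∈ S, π) * ∏ i, (∏ u ∈ U, u ^ (e i u)) ^ (l i).val) % 9 = 1 := by
      rw [← Pool.Agent.Y550.XK.NS.mod_iff]
      omega
    rw [nrm_mul, Nat.mul_mod, h4, mul_one, Nat.mod_mod] at h6
    exact h6
  rcases t_BASE (S ∪ U) (wF e U l) 1 (fun π hπ => (Finset.mem_union.1 hπ).elim (hS π) (hU π))
    one_ne_zero hG hn with h | ⟨n, π, e', h1, h2, h3, h4⟩
  · exfalso
    apply hn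
    rw [h]
    have : nr (1 : Ei) = 1 := by decide
    rw [this, sub_self]
    exact dvd_zero _
  · exact ⟨n, π, e', _, h1, h2, h3, hU0 _, by rw [← h4]; exact hf⟩

theorem ind_w {r : ℕ} (a : Fin r → 𝓞 K) (hind : Indep a)
    {U : Finset Ei} {e : Fin r → Ei → ℕ}
    (hfac : ∀ i, j.symm (a i) = ∏ u ∈ U, u ^ (e i u)) (l l' : Fin r → ZMod 3) (hll : l ≠ l') :
    ∃ u ∈ U, wF e U l u ≠ wF e U l' u := by
  by_contra hcon
  push Not at hcon
  apply hll
  apply sub_eq_zero.1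
  apply hind
  have hcast : ∀ (x : Fin r → ZMod 3) (u : Ei), ((eF e x u : ℕ) : ZMod 3) =
      ∑ i, x i * (e i u : ZMod 3) := by
    intro x u
    unfold eF
    push_cast
    exact Finset.sum_congr rfl fun i _ => by rw [ZMod.natCast_zmod_val]
  have h1 : ∀ u ∈ U, 3 ∣ eF e (l - l') u := by
    intro u hu
    have h2 := hcon u hu
    unfold wF at h2
    rw [if_pos hu, if_pos hu, hcast, hcast] at h2
    have h3 : ((eF e (l - l') u : ℕ) : ZMod 3) = 0 := by
      rw [hcast]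
      have h4 : ∑ i, (l - l') i * (e i u : ZMod 3) =
          ∑ i, l i * (e i u : ZMod 3) - ∑ i, l' i * (e i u : ZMod 3) := by
        rw [← Finset.sum_sub_distrib]
        exact Finset.sum_congr rfl fun i _ => by rw [Pi.sub_apply, sub_mul]
      rw [h4, h2, sub_self]
    exact (ZMod.natCast_eq_zero_iff _ 3).1 h3
  have h5 : ∏ i, (j.symm (a i)) ^ ((l - l') i).val = (∏ u ∈ U, u ^ (eF e (l - l') u / 3)) ^ 3 := by
    rw [Finset.prod_congr rfl fun i _ => by rw [hfac i, ← Finset.prod_pow], Finset.prod_comm,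
      ← Finset.prod_pow]
    refine Finset.prod_congr rfl fun u hu => ?_
    rw [← pow_mul, Nat.div_mul_cancel (h1 u hu)]
    unfold eF
    rw [← Finset.prod_pow_eq_pow_sum]
    refine Finset.prod_congr rfl fun i _ => ?_
    rw [← pow_mul, mul_comm]
  obtain ⟨x0, hx0⟩ : ∃ x0 : 𝓞 K, x0 = j (∏ u ∈ U, u ^ (eF e (l - l') u / 3)) := ⟨_, rfl⟩
  refine ⟨(x0 : K), ?_⟩
  have h6 : ∏ i, (a i) ^ ((l - l') i).val = x0 ^ 3 := by
    rw [hx0, ← map_pow, ← h5, map_prod]
    exact Finset.prod_congr rfl fun i _ => by rw [map_pow, RingEquiv.apply_symm_apply]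
  have h7 := congrArg (algebraMap (𝓞 K) K) h6
  simp only [map_prod, map_pow] at h7
  exact h7

/-- the Galois group is everything, and the characters -/
theorem chars {r : ℕ} {d : Ei} {b : Fin r → Ei} (hMULT : S_MULT) (hd : d ≠ 0)
    (hb : ∀ i, b i ≠ 0) (hind : Indep (fun i => j (b i))) (F : Type) [Field F] [NumberField F]
    [Algebra K F] (hF : IsKummer (fun i => j (b i)) F) :
    Module.finrank K F = 3 ^ r ∧ ∀ [Fintype (F ≃ₐ[K] F)],
      (Finset.univ.filter fun l : Fin r → ZMod 3 => GoodL d b l ∧ GoodL d b (-l)).card ≤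
        Nat.card {χ : (F ≃ₐ[K] F) →* ℂˣ // CharZ (j d) (fun i => j (b i)) F χ} := by
  obtain ⟨θ, hθ, hadj⟩ := hF
  have hI : ((j w : 𝓞 K) : K) ^ 2 + ((j w : 𝓞 K) : K) + 1 = 0 := by
    have hww : (w : Ei) ^ 2 + w + 1 = 0 := by decide
    have h1 : (j w) ^ 2 + j w + 1 = 0 := by
      rw [← map_pow, ← map_one j, ← map_add, ← map_add, hww, map_zero]
    exact_mod_cast congrArg (algebraMap (𝓞 K) K) h1
  have hI3 : ((j w : 𝓞 K) : K) ^ 3 = 1 := by linear_combination (((j w : 𝓞 K) : K) - 1) * hI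
  have hne : ∀ x : Ei, x ≠ 0 → ((j x : 𝓞 K) : K) ≠ 0 := by
    intro x hx h
    have h1 : j x = 0 := by exact_mod_cast h
    exact hx ((map_eq_zero_iff j j.injective).1 h1)
  obtain ⟨hfd, hgal, c, hcm, hci, hcθ⟩ := t_GAL K F _ hI r (fun i => ((j (b i) : 𝓞 K) : K)) θ
    (fun i => hne _ (hb i)) hθ hadj
  -- no relation
  have hrel : ∀ t : Fin r → ZMod 3, (∀ σ : F ≃ₐ[K] F, ∑ i, t i * c σ i = 0) → t = 0 := by
    intro t ht
    apply hind
    have h1 : ∀ σ : F ≃ₐ[K] F, σ (∏ i, θ i ^ (t i).val) = ∏ i, θ i ^ (t i).val := by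
      intro σ
      have h2 : (algebraMap K F ((j w : 𝓞 K) : K)) ^ 3 = 1 := by rw [← map_pow, hI3, map_one]
      have h3 : (∑ i, (c σ i).val * (t i).val) % 3 = 0 := by
        have h4 : ((∑ i, (c σ i).val * (t i).val : ℕ) : ZMod 3) = 0 := by
          rw [← ht σ]
          push_cast
          refine Finset.sum_congr rfl fun i _ => ?_
          rw [ZMod.natCast_zmod_val, ZMod.natCast_zmod_val, mul_comm]
        exact Nat.mod_eq_zero_of_dvd ((ZMod.natCast_eq_zero_iff _ 3).1 h4)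
      have h5 : σ (∏ i, θ i ^ (t i).val) =
          algebraMap K F ((j w : 𝓞 K) : K) ^ (∑ i, (c σ i).val * (t i).val) *
            ∏ i, θ i ^ (t i).val := by
        rw [map_prod, ← Finset.prod_pow_eq_pow_sum, ← Finset.prod_mul_distrib]
        refine Finset.prod_congr rfl fun i _ => ?_
        rw [map_pow, hcθ, mul_pow, map_pow, ← pow_mul]
      rw [h5, pow_eq_pow_mod _ h2, h3, pow_zero, one_mul]
    obtain ⟨x, hx⟩ := (IsGalois.mem_range_algebraMap_iff_fixed (F := K) (E := F)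
      (∏ i, θ i ^ (t i).val)).2 h1
    refine ⟨x, (algebraMap K F).injective ?_⟩
    rw [map_pow, hx, map_prod, ← Finset.prod_pow]
    refine Finset.prod_congr rfl fun i _ => ?_
    rw [map_pow, ← pow_mul, mul_comm, pow_mul, hθ i]
  refine ⟨?_, ?_⟩
  · -- the degree
    have hsurj : Function.Surjective c := by
      let H : Submodule (ZMod 3) (Fin r → ZMod 3) :=
        AddSubgroup.toZModSubmodule 3
          { carrier := Set.range c
            zero_mem' := ⟨1, by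
              funext i
              exact KF.c_one hcm i⟩
            add_mem' := by
              rintro _ _ ⟨σ, rfl⟩ ⟨τ, rfl⟩
              exact ⟨σ * τ, by funext i; exact hcm σ τ i⟩
            neg_mem' := by
              rintro _ ⟨σ, rfl⟩
              exact ⟨σ⁻¹, by funext i; exact KF.c_inv hcm σ i⟩ }
      have hH : ∀ σ, c σ ∈ H := fun σ => ⟨σ, rfl⟩
      by_contra hcon
      have hlt : H < ⊤ := by
        rw [lt_top_iff_ne_top]
        intro h
        apply hcon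
        intro x
        have h1 : x ∈ H := by rw [h]; exact Submodule.mem_top
        exact h1
      obtain ⟨f, hf0, hf⟩ := Submodule.exists_le_ker_of_lt_top H hlt
      have hfx : ∀ x : Fin r → ZMod 3, f x = ∑ i, f (Pi.single i 1) * x i := by
        intro x
        conv_lhs => rw [LinearMap.pi_apply_eq_sum_univ f x]
        refine Finset.sum_congr rfl fun i _ => ?_
        rw [smul_eq_mul, mul_comm]
        congr 2
        funext k
        rw [Pi.single_apply]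
        by_cases h : i = k
        · rw [if_pos h, if_pos h.symm]
        · rw [if_neg h, if_neg fun h' => h h'.symm]
      have h1 := hrel (fun i => f (Pi.single i 1)) fun σ => by
        rw [← hfx]
        exact hf (hH σ)
      apply hf0
      ext x
      have : f (Pi.single x 1) = 0 := congrFun h1 x
      simpa using this
    have hcard : Nat.card (F ≃ₐ[K] F) = 3 ^ r := by
      rw [Nat.card_congr (Equiv.ofBijective c ⟨hci, hsurj⟩), Nat.card_eq_fintype_card,
        Fintype.card_fun, ZMod.card, Fintype.card_fin]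
    rw [← hcard]
    exact (IsGalois.card_aut_eq_finrank K F).symm
  · intro hft
    -- the characters
    let X : (Fin r → ZMod 3) → ((F ≃ₐ[K] F) →* ℂˣ) := fun l =>
      { toFun := fun σ => Units.mk0 (tw (∑ i, l i * c σ i)) (tw_ne _)
        map_one' := by
          ext
          have h1 : ∑ i, l i * c 1 i = 0 :=
            Finset.sum_eq_zero fun i _ => by rw [KF.c_one hcm i, mul_zero]
          rw [Units.val_mk0, h1, tw_zero', Units.val_one]
        map_mul' := fun σ τ => by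
          ext
          have h1 : ∑ i, l i * c (σ * τ) i = ∑ i, l i * c σ i + ∑ i, l i * c τ i := by
            rw [← Finset.sum_add_distrib]
            exact Finset.sum_congr rfl fun i _ => by rw [hcm, mul_add]
          rw [Units.val_mk0, h1, Units.val_mul, Units.val_mk0, Units.val_mk0,
            Pool.Agent.H451.BB.tw_add] }
    have hX : ∀ l σ, (X l σ : ℂ) = tw (∑ i, l i * c σ i) := fun l σ => rfl
    have hXi : Function.Injective X := by
      intro l l' h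
      apply sub_eq_zero.1
      apply hrel
      intro σ
      have h1 := tw_inj ((hX l σ).symm.trans ((by rw [h] : (X l σ : ℂ) = X l' σ).trans
        (hX l' σ)))
      have h2 : ∑ i, (l - l') i * c σ i = ∑ i, l i * c σ i - ∑ i, l' i * c σ i := by
        rw [← Finset.sum_sub_distrib]
        exact Finset.sum_congr rfl fun i _ => by rw [Pi.sub_apply, sub_mul]
      rw [h2, h1, sub_self]
    have hfinχ : Finite ((F ≃ₐ[K] F) →* ℂˣ) := by
      have hl : ∀ χ : (F ≃ₐ[K] F) →* ℂˣ, ∃ l : Fin r → ZMod 3, ∀ σ,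
        (χ σ : ℂ) = tw (∑ x, l x * c σ x) := fun χ => t_CHR (F ≃ₐ[K] F) r c hcm hci χ
      choose l hl using hl
      refine Finite.of_injective l fun χ χ' h => ?_
      ext σ
      rw [hl χ σ, hl χ' σ, h]
    rw [← Fintype.card_coe, ← Nat.card_eq_fintype_card]
    refine Nat.card_le_card_of_injective (fun l => ⟨X l.1, ?_⟩) ?_
    · have h1 := (Finset.mem_filter.1 l.2).2
      exact char_one j hMULT hd hb hθ hcm hci hcθ h1.1 h1.2 (hX l.1)
    · intro l l' h
      exact Subtype.ext (hXi (Subtype.ext_iff.1 h))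

end K

/-- for every field `F` generated over `K` by cube roots of the `a i`: the degree is `3 ^ r`, and at least
`t` characters of the Galois group satisfy the equivariant conjecture for `E_D`, both sides zero -/
def Most {K : Type} [Field K] [NumberField K] {r : ℕ} (a : Fin r → 𝓞 K) (t : ℝ) (D : 𝓞 K) : Prop :=
  ∀ (F : Type) [Field F] [NumberField F] [Algebra K F], IsKummer a F →
    Module.finrank K F = 3 ^ r ∧ ∀ [Fintype (F ≃ₐ[K] F)],
      t ≤ (Nat.card {χ : (F ≃ₐ[K] F) →* ℂˣ // CharZ D a F χ} : ℝ)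

theorem finalM (hMULT : S_MULT) (K : Type) [Field K] [NumberField K]
    [IsCyclotomicExtension {3} ℚ K] (r : ℕ)
    (a : Fin r → 𝓞 K) (ha : ∀ i, (3 : 𝓞 K) ∣ a i - 1)
    (h9 : ∀ i, (9 : ℤ) ∣ Algebra.norm ℤ (a i) - 1) (hind : Indep a) (δ : ℝ) (hδ : 0 < δ) :
    (∃ c : ℝ, 0 < c ∧ ∃ X₀ : ℕ, ∀ X : ℕ, X₀ ≤ X →
      c * X ≤ ({D : 𝓞 K | Algebra.norm ℤ D ≤ X ∧ AdmF a D}.ncard : ℝ)) ∧
    ∃ X₀ : ℕ, ∀ X : ℕ, X₀ ≤ X →
      ({D : 𝓞 K | Algebra.norm ℤ D ≤ X ∧ AdmF a D ∧
        ¬ Most a ((0.408 - δ) * 3 ^ r) D}.ncard : ℝ) ≤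
      5 / (δ ^ 2 * 3 ^ r) * ({D : 𝓞 K | Algebra.norm ℤ D ≤ X ∧ AdmF a D}.ncard : ℝ) := by
  obtain ⟨⟨j, hj⟩, -⟩ := Pool.Agent.Y455.CTK.jex K
  have ha' : ∀ i, (3 : Ei) ∣ j.symm (a i) - 1 := fun i =>
    Pool.Agent.Y696.CTK.three_dvd_symm j (ha i)
  obtain ⟨U, e, hU, hU1, hfac⟩ := t_PRM r (fun i => j.symm (a i)) ha'
  have hadm := admF_iff j hj a hU hU1 hfac
  have hcount : ∀ X : ℕ, {D : 𝓞 K | Algebra.norm ℤ D ≤ X ∧ AdmF a D}.ncard =
      ((SS X).filter (CondJ U R47)).card := by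
    intro X
    rw [Pool.Agent.Y696.XK.img_ncard j hj X (fun D => ClsE D ∧ CondJ U R47 (PD D)) (AdmF a) hadm]
    exact Pool.Agent.Y550.XK.NS.card_eq X (CondJ U R47)
  have h47 : 4 ∈ R47 ∨ 7 ∈ R47 := Or.inl (by show ¬ 4 % 9 = 1; norm_num)
  have hlow : ∃ c : ℝ, 0 < c ∧ ∃ X₀ : ℕ, ∀ X : ℕ, X₀ ≤ X →
      c * X ≤ ({D : 𝓞 K | Algebra.norm ℤ D ≤ X ∧ AdmF a D}.ncard : ℝ) := by
    obtain ⟨c, X₀, hc, hX⟩ := t_LOWJ U R47 hU h47
    refine ⟨c, hc, X₀, fun X h => ?_⟩
    rw [hcount X]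
    exact hX X h
  refine ⟨hlow, ?_⟩
  obtain ⟨c, hc, X₁, hX1⟩ := hlow
  obtain ⟨X₀, hX0⟩ := cheb (e := e) hU (fun l l' h => ind_w j a hind hfac l l' h) hδ
  refine ⟨max X₀ (max X₁ 1), fun X hXX => ?_⟩
  have a1 : X₀ ≤ X := le_trans (le_max_left _ _) hXX
  have a2 : X₁ ≤ X := le_trans (le_trans (le_max_left _ _) (le_max_right _ _)) hXX
  have a3 : 1 ≤ X := le_trans (le_trans (le_max_right _ _) (le_max_right _ _)) hXX
  have hpos : (0 : ℝ) < ({D : 𝓞 K | Algebra.norm ℤ D ≤ X ∧ AdmF a D}.ncard : ℝ) := by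
    refine lt_of_lt_of_le ?_ (hX1 X a2)
    have : (1 : ℝ) ≤ X := by exact_mod_cast a3
    positivity
  have hfin : {D : 𝓞 K | Algebra.norm ℤ D ≤ X ∧ AdmF a D}.Finite :=
    Set.finite_of_ncard_pos (by exact_mod_cast hpos)
  rw [hcount X]
  refine le_trans ?_ (hX0 X a1)
  have h8 : ((((SS X).filter (CondJ U R47)).filter fun S =>
        (NN e U S : ℝ) < (0.408 - δ) * 3 ^ r).card : ℝ) =
      ({D : 𝓞 K | Algebra.norm ℤ D ≤ X ∧
        (AdmF a D ∧ (NN e U (PD (j.symm D)) : ℝ) < (0.408 - δ) * 3 ^ r)}.ncard : ℝ) := by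
    rw [Pool.Agent.Y696.XK.img_ncard j hj X
      (fun D => ClsE D ∧ (CondJ U R47 (PD D) ∧ (NN e U (PD D) : ℝ) < (0.408 - δ) * 3 ^ r))
      (fun D => AdmF a D ∧ (NN e U (PD (j.symm D)) : ℝ) < (0.408 - δ) * 3 ^ r) fun D => by
        rw [RingEquiv.symm_apply_apply, ← hadm D]
        tauto]
    rw [Pool.Agent.Y550.XK.NS.card_eq X
      (fun S => CondJ U R47 S ∧ (NN e U S : ℝ) < (0.408 - δ) * 3 ^ r), Finset.filter_filter]
    congr
  rw [h8]
  refine Nat.cast_le.2 (Set.ncard_le_ncard ?_ (hfin.subset fun D hD => ⟨hD.1, hD.2.1⟩))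
  rintro D ⟨b1, b2, b3⟩
  refine ⟨b1, b2, ?_⟩
  by_contra hcon
  push Not at hcon
  apply b3
  intro L _ _ _ hL
  obtain ⟨z, rfl⟩ := j.surjective D
  rw [RingEquiv.symm_apply_apply] at hcon
  obtain ⟨hz, g1, g2⟩ := (hadm z).2 b2
  have hPS : PS z := ⟨hz.1, hz.2.1⟩
  have hpq : ∀ π ∈ PD z, Pq π := fun π hπ => ((mem_PD hPS.ne).1 hπ).1
  have hprod : ∏ π ∈ PD z, π = z := hPS.prod
  have haj : (fun i => j (∏ u ∈ U, u ^ (e i u))) = a := by
    funext i
    rw [← hfac i, RingEquiv.apply_symm_apply]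
  have hind' : Indep (fun i => j (∏ u ∈ U, u ^ (e i u))) := by rw [haj]; exact hind
  have hL' : IsKummer (fun i => j (∏ u ∈ U, u ^ (e i u))) L := by rw [haj]; exact hL
  obtain ⟨k1, k2⟩ := chars j (d := z) hMULT hPS.ne
    (fun i => Finset.prod_ne_zero_iff.2 fun u hu => pow_ne_zero _ (hU u hu).prime.ne_zero)
    hind' L hL'
  rw [haj] at k2
  refine ⟨k1, ?_⟩
  intro hft
  refine hcon.trans ?_
  refine Nat.cast_le.2 (le_trans ?_ k2)
  unfold NN
  refine Finset.card_le_card fun l hl => ?_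
  obtain ⟨-, m1, m2⟩ := Finset.mem_filter.1 hl
  refine Finset.mem_filter.2 ⟨Finset.mem_univ l, ?_, ?_⟩
  · have := goodF_l j hj a h9 hU hfac hpq g1 (by rw [hprod]; exact hz.2.2) l m1
    rwa [hprod] at this
  · have := goodF_l j hj a h9 hU hfac hpq g1 (by rw [hprod]; exact hz.2.2) (-l) m2
    rwa [hprod] at this

end Pool.Agent.H451.KG
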