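import Mathlib
import Pool.Agent.H451.KG.Stm
import Pool.Agent.H451.KF.PTS

/-!
# KG-SAME: the same rank over a Kummer extension (helper685)
-/

set_option autoImplicit false
set_option linter.unusedSectionVars false
set_option linter.unusedVariables false

namespace Pool.Agent.H451.KG.SAME

open WeierstrassCurve
open Pool.Agent.H451.CubT (E)
open Pool.Agent.H451.KF.PTS
open scoped Classical

/-- a homomorphism with values in a finite set is killed by a positive integer -/
theorem killed {G : Type} [AddCommGroup G] (f : AddMonoid.End G) {S : Set G} (hS : S.Finite)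
    (h : ∀ P, f P ∈ S) : ∃ n : ℕ, 0 < n ∧ ∀ P, n • f P = 0 := by
  let g : G →+ G := f
  have hfin : Finite g.range := by
    refine Set.finite_coe_iff.2 (hS.subset ?_)
    rintro _ ⟨P, rfl⟩
    exact h P
  refine ⟨Nat.card g.range, Nat.card_pos, fun P => ?_⟩
  have h1 : Nat.card g.range • (⟨g P, P, rfl⟩ : g.range) = 0 := card_nsmul_eq_zero'
  have h2 := congrArg Subtype.val h1
  exact h2

section group

variable {G : Type} [AddCommGroup G]

theorem same_group {Γ : Type} [Group Γ] [Fintype Γ] {r : ℕ} (c : Γ → Fin r → ZMod 3)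
    (hc : ∀ σ τ i, c (σ * τ) i = c σ i + c τ i) (hinj : Function.Injective c)
    (A : AddMonoid.End G) (s : Γ → AddMonoid.End G) (hs : ∀ σ τ, s (σ * τ) = s σ * s τ)
    (hs1 : s 1 = 1) (hcomm : ∀ σ, Commute (s σ) A) (hA : ∀ P, A (A P) = -P - A P)
    (hfix : ∀ l : Fin r → ZMod 3, l ≠ 0 → {P | ∀ τ, s τ P = pw A (LL c l τ) P}.Finite) :
    ∃ n : ℕ, 0 < n ∧ ∀ P : G, ∀ τ, s τ (n • P) = n • P := by
  have hA2 : A * A = -1 - A := by
    ext P
    exact hA P
  have hA3 : A ^ 3 = 1 := by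
    rw [pow_succ, pow_two, hA2, sub_mul, hA2, neg_one_mul]
    abel
  have hsum : 1 + A + A ^ 2 = 0 := by
    rw [pow_two, hA2]
    abel
  have hc1 : ∀ i, c 1 i = 0 := by
    intro i
    have h := hc 1 1 i
    rw [mul_one] at h
    exact left_eq_add.1 h
  have h1 := pr_eig hc hA3 hs hcomm
  have h4 := pr_sum hc1 hinj hA3 hsum hs1
  have hk : ∀ l : Fin r → ZMod 3, ∃ n : ℕ, 0 < n ∧ (l ≠ 0 → ∀ P, n • pr c A s l P = 0) := by
    intro l
    by_cases hl : l = 0
    · exact ⟨1, one_pos, fun h => absurd hl h⟩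
    · obtain ⟨n, hn, hn'⟩ := killed (pr c A s l) (hfix l hl)
        (fun P τ => DFunLike.congr_fun (h1 l τ) P)
      exact ⟨n, hn, fun _ => hn'⟩
  choose n hn hnl using hk
  refine ⟨(∏ l, n l) * 3 ^ (r + 1), Nat.mul_pos (Finset.prod_pos fun l _ => hn l)
    (pow_pos (by norm_num) _), fun P τ => ?_⟩
  have h5 : (3 ^ (r + 1) : ℕ) • P = ∑ l, (3 : ℕ) • pr c A s l P := by
    have h5 := DFunLike.congr_fun h4 P
    rw [← Finset.smul_sum]
    have h6 : (∑ l, pr c A s l) P = ∑ l, pr c A s l P := AddMonoidHom.finsetSum_apply _ _ _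
    rw [← h6]
    rw [AddMonoid.End.natCast_apply] at h5
    exact h5.symm
  have h6 : ((∏ l, n l) * 3 ^ (r + 1)) • P = ((∏ l, n l) * 3) • pr c A s 0 P := by
    rw [mul_smul, h5, Finset.smul_sum, Finset.sum_eq_single (0 : Fin r → ZMod 3)]
    · rw [← mul_smul]
    · intro l _ hl
      obtain ⟨t, ht⟩ : n l ∣ (∏ l, n l) * 3 :=
        (Finset.dvd_prod_of_mem n (Finset.mem_univ l)).mul_right 3
      rw [← mul_smul, ht, mul_comm, mul_smul, hnl l hl, smul_zero]
    · intro h
      exact absurd (Finset.mem_univ _) h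
  rw [h6, map_nsmul]
  congr 1
  have h7 : s τ (pr c A s 0 P) = pw A (LL c 0 τ) (pr c A s 0 P) := DFunLike.congr_fun (h1 0 τ) P
  rw [h7]
  have h8 : LL c 0 τ = 0 := by
    unfold LL
    refine Finset.sum_eq_zero fun i _ => ?_
    rw [Pi.zero_apply, zero_mul]
  rw [h8, pw_zero]
  rfl

end group

section setup

variable {K F : Type} [Field K] [CharZero K] [Field F] [CharZero F] [Algebra K F]

theorem isE_base {D : K} (hD : D ≠ 0) :
    IsE (Affine.baseChange (E D).toAffine F) (algebraMap K F D) := by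
  have hVE : Affine.baseChange (E D).toAffine F = E (algebraMap K F D) := by
    ext <;> simp [E, Affine.baseChange]
  rw [hVE]
  exact ⟨rfl, rfl, rfl, rfl, rfl, (map_ne_zero _).2 hD⟩

/-- the action of the Galois group -/
noncomputable def sE (D : K) (σ : F ≃ₐ[K] F) :
    AddMonoid.End (Affine.baseChange (E D).toAffine F).toAffine.Point :=
  Affine.Point.map (W' := (E D).toAffine) (σ : F →ₐ[K] F)

theorem sE_some (D : K) (σ : F ≃ₐ[K] F) (x y : F)
    (h : (Affine.baseChange (E D).toAffine F).toAffine.Nonsingular x y) :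
    ∃ h' : (Affine.baseChange (E D).toAffine F).toAffine.Nonsingular (σ x) (σ y),
      sE D σ (.some x y h) = .some (σ x) (σ y) h' := ⟨_, rfl⟩

theorem sE_mul (D : K) (σ τ : F ≃ₐ[K] F) : sE D (σ * τ) = sE D σ * sE D τ := by
  ext P
  rcases P with _ | ⟨x, y, h⟩
  · rfl
  · obtain ⟨h1, e1⟩ := sE_some D (σ * τ) x y h
    obtain ⟨h2, e2⟩ := sE_some D τ x y h
    obtain ⟨h3, e3⟩ := sE_some D σ _ _ h2
    show sE D (σ * τ) (.some x y h) = sE D σ (sE D τ (.some x y h))
    rw [e1, e2, e3, Affine.Point.some.injEq]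
    exact ⟨rfl, rfl⟩

theorem sE_one (D : K) : sE D (1 : F ≃ₐ[K] F) = 1 := by
  ext P
  rcases P with _ | ⟨x, y, h⟩
  · rfl
  · obtain ⟨h1, e1⟩ := sE_some D (1 : F ≃ₐ[K] F) x y h
    show sE D 1 (.some x y h) = .some x y h
    rw [e1, Affine.Point.some.injEq]
    exact ⟨rfl, rfl⟩

theorem sE_comm {D : K} (hisE : IsE (Affine.baseChange (E D).toAffine F) (algebraMap K F D))
    {I : K} (hJ2 : algebraMap K F I ^ 2 + algebraMap K F I + 1 = 0) (σ : F ≃ₐ[K] F) :
    Commute (sE D σ) (imE hisE hJ2) := by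
  have hA_some : ∀ x y (h : (Affine.baseChange (E D).toAffine F).toAffine.Nonsingular x y),
      ∃ h' : (Affine.baseChange (E D).toAffine F).toAffine.Nonsingular (algebraMap K F I * x) y,
      imE hisE hJ2 (.some x y h) = .some (algebraMap K F I * x) y h' := fun x y h => ⟨_, rfl⟩
  show sE D σ * imE hisE hJ2 = imE hisE hJ2 * sE D σ
  ext P
  rcases P with _ | ⟨x, y, h⟩
  · rfl
  · obtain ⟨h1, e1⟩ := sE_some D σ x y h
    obtain ⟨h2, e2⟩ := hA_some x y h
    obtain ⟨h3, e3⟩ := sE_some D σ _ _ h2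
    obtain ⟨h4, e4⟩ := hA_some _ _ h1
    show sE D σ (imE hisE hJ2 (.some x y h)) = imE hisE hJ2 (sE D σ (.some x y h))
    rw [e2, e3, e1, e4, Affine.Point.some.injEq]
    refine ⟨?_, rfl⟩
    rw [map_mul, σ.commutes]

theorem fix_fin [FiniteDimensional K F] [IsGalois K F] {I : K} (hI : I ^ 2 + I + 1 = 0) {r : ℕ}
    {b : Fin r → K} {θ : Fin r → F} {c : (F ≃ₐ[K] F) → Fin r → ZMod 3} (hb : ∀ i, b i ≠ 0)
    (hθ : ∀ i, θ i ^ 3 = algebraMap K F (b i))
    (hσ : ∀ σ i, σ (θ i) = algebraMap K F (I ^ (c σ i).val) * θ i) {D : K} (hD : D ≠ 0)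
    (hisE : IsE (Affine.baseChange (E D).toAffine F) (algebraMap K F D))
    (hJ2 : algebraMap K F I ^ 2 + algebraMap K F I + 1 = 0) (l : Fin r → ZMod 3)
    (hfin : Finite (E (D * ∏ i, b i ^ (l i).val)).toAffine.Point) :
    {P | ∀ τ : F ≃ₐ[K] F, sE D τ P = pw (imE hisE hJ2) (LL c l τ) P}.Finite := by
  have hI3 : I ^ 3 = 1 := by linear_combination (I - 1) * hI
  have hBl : ∏ i, b i ^ (l i).val ≠ 0 := Finset.prod_ne_zero_iff.2 fun i _ => pow_ne_zero _ (hb i)
  have hBF : algebraMap K F (∏ i, b i ^ (l i).val) ≠ 0 := (map_ne_zero _).2 hBl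
  have hΘ3 : (∏ i, θ i ^ (l i).val) ^ 3 = algebraMap K F (∏ i, b i ^ (l i).val) := by
    rw [map_prod, ← Finset.prod_pow]
    refine Finset.prod_congr rfl fun i _ => ?_
    rw [map_pow, ← hθ, ← pow_mul, ← pow_mul, mul_comm]
  have hVE : Affine.baseChange (E D).toAffine F = E (algebraMap K F D) := by
    ext <;> simp [E, Affine.baseChange]
  revert hfin
  intro hfin
  have hkey : ∀ x y (hn : (Affine.baseChange (E D).toAffine F).toAffine.Nonsingular x y),
      (∀ τ : F ≃ₐ[K] F, sE D τ (.some x y hn) = pw (imE hisE hJ2) (LL c l τ) (.some x y hn)) →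
      ∃ X Y : K, Y ^ 2 + (D * ∏ i, b i ^ (l i).val) * Y = X ^ 3 ∧
        x = algebraMap K F X * ((∏ i, θ i ^ (l i).val) /
          algebraMap K F (∏ i, b i ^ (l i).val)) ∧
        y = algebraMap K F Y * (1 / algebraMap K F (∏ i, b i ^ (l i).val)) := by
    intro x y hn hP
    have hxy : ∀ τ : F ≃ₐ[K] F, τ x = algebraMap K F I ^ (LL c l τ).val * x ∧ τ y = y := by
      intro τ
      have h1 := hP τ
      obtain ⟨h2, e2⟩ := sE_some D τ x y hn
      obtain ⟨h3, e3⟩ := im_pow hisE hJ2 (LL c l τ).val x y hn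
      have h4 : (Affine.Point.some (τ x) (τ y) h2 :
          (Affine.baseChange (E D).toAffine F).toAffine.Point) =
          .some (algebraMap K F I ^ (LL c l τ).val * x) y h3 := by
        rw [← e2, ← e3]
        exact h1
      rw [Affine.Point.some.injEq] at h4
      exact h4
    obtain ⟨x0, hx0⟩ := eig hI3 hb hθ hσ l x fun τ => (hxy τ).1
    obtain ⟨y0, hy0⟩ := (IsGalois.mem_range_algebraMap_iff_fixed (F := K) (E := F) y).2
      fun τ => (hxy τ).2
    have h5 := (hisE.eqn x y).1 hn.1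
    refine ⟨(∏ i, b i ^ (l i).val) * x0, (∏ i, b i ^ (l i).val) * y0, ?_, ?_, ?_⟩
    · apply (algebraMap K F).injective
      rw [hx0, ← hy0, mul_pow, hΘ3] at h5
      simp only [map_add, map_mul, map_pow] at h5 ⊢
      linear_combination (algebraMap K F (∏ i, b i ^ (l i).val)) ^ 2 * h5
    · rw [hx0, map_mul]
      field_simp
    · rw [← hy0, map_mul]
      field_simp
  refine Pool.Agent.Y710.CTE.fin_of (d := D * ∏ i, b i ^ (l i).val) (mul_ne_zero hD hBl)
    hfin ((∏ i, θ i ^ (l i).val) / algebraMap K F (∏ i, b i ^ (l i).val))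
    (1 / algebraMap K F (∏ i, b i ^ (l i).val)) _ ?_
  intro x y hn hP
  exact hkey x y hn hP

end setup

end Pool.Agent.H451.KG.SAME

namespace Pool.Agent.H451.KG

open WeierstrassCurve
open Pool.Agent.H451.CubT (E)
open Pool.Agent.H451.KF.PTS
open SAME
open scoped Classical

theorem t_SAME : S_SAME := by
  intro K F _ _ _ _ _ _ I hI r b θ c hb hθ hc hinj hσ D hD hfin
  have hF0 : CharZero F := charZero_of_injective_algebraMap (algebraMap K F).injective
  have hJ2 : algebraMap K F I ^ 2 + algebraMap K F I + 1 = 0 := by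
    rw [← map_pow, ← map_one (algebraMap K F), ← map_add, ← map_add, hI, map_zero]
  have hVE : Affine.baseChange (E D).toAffine F = E (algebraMap K F D) := by
    ext <;> simp [E, Affine.baseChange]
  have hisE : IsE (Affine.baseChange (E D).toAffine F) (algebraMap K F D) := isE_base hD
  rw [← hVE]
  obtain ⟨n, hn, hfix⟩ := same_group c hc hinj (imE hisE hJ2) (sE D) (sE_mul D) (sE_one D)
    (sE_comm hisE hJ2) (im_im hisE hJ2)
    (fun l hl => fix_fin hI hb hθ hσ hD hisE hJ2 l (hfin l hl))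
  refine ⟨n, hn, fun P => ?_⟩
  have h1 := hfix P
  generalize n • P = Q at h1
  rcases Q with _ | ⟨x, y, h⟩
  · left
    rfl
  · right
    have hxy : ∀ τ : F ≃ₐ[K] F, τ x = x ∧ τ y = y := by
      intro τ
      obtain ⟨h2, e2⟩ := sE_some D τ x y h
      have h3 := h1 τ
      rw [e2, Affine.Point.some.injEq] at h3
      exact h3
    obtain ⟨x0, hx0⟩ := (IsGalois.mem_range_algebraMap_iff_fixed (F := K) (E := F) x).2
      fun τ => (hxy τ).1
    obtain ⟨y0, hy0⟩ := (IsGalois.mem_range_algebraMap_iff_fixed (F := K) (E := F) y).2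
      fun τ => (hxy τ).2
    subst hx0
    subst hy0
    exact ⟨x0, y0, h, rfl⟩

end Pool.Agent.H451.KG
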