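import Mathlib
import Pool.Agent.H451.KG.Stm
import Pool.Agent.H451.KF.PTS
import Pool.Agent.H451.KG.SAME

/-!
# KG-MULT: a character which does not occur in the points (helper685)
-/

set_option autoImplicit false
set_option linter.unusedSectionVars false
set_option linter.unusedVariables false

namespace Pool.Agent.H451.KG.MULT

open WeierstrassCurve
open Pool.Agent.H451.CubT (E)
open Pool.Agent.H451.KF.PTS
open Pool.Agent.H451.KG.SAME
open scoped Classical TensorProduct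

section group

variable {G : Type} [AddCommGroup G]

theorem A3_of {A : AddMonoid.End G} (hA : ∀ P, A (A P) = -P - A P) : A ^ 3 = 1 := by
  have hA2 : A * A = -1 - A := by
    ext P
    exact hA P
  rw [pow_succ, pow_two, hA2, sub_mul, hA2, neg_one_mul]
  abel

/-- the endomorphism `t ⊗ P ↦ t ⊗ A P` -/
noncomputable def aa (A : AddMonoid.End G) : (ℂ ⊗[ℤ] G) →ₗ[ℂ] (ℂ ⊗[ℤ] G) :=
  (AddMonoidHom.toIntLinearMap (A : G →+ G)).baseChange ℂ

theorem aa_tmul (A : AddMonoid.End G) (t : ℂ) (P : G) :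
    aa A (t ⊗ₜ[ℤ] P) = t ⊗ₜ[ℤ] (A P) := rfl

theorem aa_aa {A : AddMonoid.End G} (hA : ∀ P, A (A P) = -P - A P) (X : ℂ ⊗[ℤ] G) :
    aa A (aa A X) = -X - aa A X := by
  induction X using TensorProduct.induction_on with
  | zero => simp
  | tmul t P =>
    rw [aa_tmul, aa_tmul, hA, TensorProduct.tmul_sub, TensorProduct.tmul_neg]
  | add X Y hX hY =>
    rw [map_add, map_add, hX, hY]
    abel

/-- `a - u²` -/
noncomputable def ee (A : AddMonoid.End G) (u : ℂ) : (ℂ ⊗[ℤ] G) →ₗ[ℂ] (ℂ ⊗[ℤ] G) :=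
  aa A - (u ^ 2) • LinearMap.id

theorem ee_apply (A : AddMonoid.End G) (u : ℂ) (X : ℂ ⊗[ℤ] G) :
    ee A u X = aa A X - (u ^ 2) • X := rfl

theorem ee_aa {A : AddMonoid.End G} (hA : ∀ P, A (A P) = -P - A P) {u : ℂ}
    (hu : u ^ 2 + u + 1 = 0) (X : ℂ ⊗[ℤ] G) : ee A u (aa A X) = u • ee A u X := by
  have h2 : u ^ 2 = -1 - u := by linear_combination hu
  rw [ee_apply, ee_apply, aa_aa hA, h2, smul_sub, smul_smul]
  have h3 : u * (-1 - u) = 1 := by linear_combination -hu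
  rw [h3, one_smul]
  module

theorem ee_pow {A : AddMonoid.End G} (hA : ∀ P, A (A P) = -P - A P) {u : ℂ}
    (hu : u ^ 2 + u + 1 = 0) (k : ℕ) (Q : G) :
    ee A u ((1 : ℂ) ⊗ₜ[ℤ] ((A ^ k) Q)) = u ^ k • ee A u ((1 : ℂ) ⊗ₜ[ℤ] Q) := by
  induction k with
  | zero =>
    rw [pow_zero, pow_zero, one_smul]
    rfl
  | succ k ih =>
    have h1 : (A ^ (k + 1)) Q = A ((A ^ k) Q) := by
      rw [pow_succ']
      rfl
    rw [h1, ← aa_tmul, ee_aa hA hu, ih, smul_smul, pow_succ']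

theorem tors {n : ℕ} (hn : 0 < n) {Q : G} (h : n • Q = 0) : (1 : ℂ) ⊗ₜ[ℤ] Q = 0 := by
  have h1 : (1 : ℂ) = (n : ℤ) • ((n : ℂ)⁻¹) := by
    rw [zsmul_eq_mul, Int.cast_natCast, mul_inv_cancel₀]
    exact_mod_cast hn.ne'
  rw [h1, TensorProduct.smul_tmul, natCast_zsmul, h, TensorProduct.tmul_zero]

theorem ee_sum {Γ : Type} [Fintype Γ] {r : ℕ} {c : Γ → Fin r → ZMod 3}
    {A : AddMonoid.End G} (hA : ∀ P, A (A P) = -P - A P) (s : Γ → AddMonoid.End G) {u : ℂ}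
    (hu : u ^ 2 + u + 1 = 0) (l : Fin r → ZMod 3) {n : ℕ} (hn : 0 < n)
    (h : ∀ P, n • pr c A s l P = 0) (P : G) :
    ee A u (∑ σ, (u ^ (-(LL c l σ)).val) ⊗ₜ[ℤ] s σ P) = 0 := by
  have h1 : ∀ σ, ee A u ((u ^ (-(LL c l σ)).val) ⊗ₜ[ℤ] s σ P) =
      ee A u ((1 : ℂ) ⊗ₜ[ℤ] (pw A (-(LL c l σ)) * s σ) P) := by
    intro σ
    have h2 : (u ^ (-(LL c l σ)).val) ⊗ₜ[ℤ] s σ P =
        (u ^ (-(LL c l σ)).val) • ((1 : ℂ) ⊗ₜ[ℤ] s σ P) := by
      rw [TensorProduct.smul_tmul', smul_eq_mul, mul_one]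
    rw [h2, map_smul, ← ee_pow hA hu]
    rfl
  rw [map_sum, Finset.sum_congr rfl fun σ _ => h1 σ, ← map_sum, ← TensorProduct.tmul_sum]
  have h2 : ∑ σ, (pw A (-(LL c l σ)) * s σ) P = pr c A s l P := by
    unfold pr
    exact (AddMonoidHom.finsetSum_apply _ _ _).symm
  rw [h2, tors hn (h P), map_zero]

theorem pow_neg_val {z : ℂ} (hz : z ^ 2 + z + 1 = 0) (x : ZMod 3) :
    z ^ (-x).val = (z ^ 2) ^ x.val := by
  have h3 : z ^ 3 = 1 := by linear_combination (z - 1) * hz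
  have hx : x = 0 ∨ x = 1 ∨ x = 2 := by
    revert x
    decide
  rcases hx with rfl | rfl | rfl
  · simp
  · rw [show (-(1 : ZMod 3)).val = 2 by decide, show (1 : ZMod 3).val = 1 by decide, pow_one]
  · rw [show (-(2 : ZMod 3)).val = 1 by decide, show (2 : ZMod 3).val = 2 by decide]
    linear_combination (-z) * h3

theorem mult_group {Γ : Type} [Fintype Γ] {r : ℕ} (c : Γ → Fin r → ZMod 3)
    {A : AddMonoid.End G} (hA : ∀ P, A (A P) = -P - A P) (s : Γ → AddMonoid.End G) {z : ℂ}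
    (hz : z ^ 2 + z + 1 = 0) (l : Fin r → ZMod 3) {n : ℕ} (hn : 0 < n)
    (h : ∀ P, n • pr c A s l P = 0) {n' : ℕ} (hn' : 0 < n') (h' : ∀ P, n' • pr c A s (-l) P = 0)
    (P : G) : ∑ σ, (z ^ (-(LL c l σ)).val) ⊗ₜ[ℤ] s σ P = (0 : ℂ ⊗[ℤ] G) := by
  have h3 : z ^ 3 = 1 := by linear_combination (z - 1) * hz
  have hz2 : (z ^ 2) ^ 2 + z ^ 2 + 1 = 0 := by linear_combination hz + z * h3
  have e1 := ee_sum hA s hz l hn h P
  have e2 := ee_sum hA s hz2 (-l) hn' h' P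
  have e3 : ∀ σ, ((z ^ 2) ^ (-(LL c (-l) σ)).val) ⊗ₜ[ℤ] s σ P =
      (z ^ (-(LL c l σ)).val) ⊗ₜ[ℤ] s σ P := by
    intro σ
    have h4 : -(LL c (-l) σ) = LL c l σ := by
      unfold LL
      rw [← Finset.sum_neg_distrib]
      refine Finset.sum_congr rfl fun i _ => ?_
      rw [Pi.neg_apply, neg_mul, neg_neg]
    rw [h4, pow_neg_val hz]
  rw [Finset.sum_congr rfl fun σ _ => e3 σ] at e2
  obtain ⟨Y, hY⟩ : ∃ Y : ℂ ⊗[ℤ] G, Y = ∑ σ, (z ^ (-(LL c l σ)).val) ⊗ₜ[ℤ] s σ P := ⟨_, rfl⟩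
  rw [← hY] at e1 e2 ⊢
  rw [ee_apply] at e1 e2
  have e4 : (z - z ^ 2) • Y = 0 := by
    have e5 : ((z ^ 2) ^ 2 - z ^ 2) • Y = 0 := by
      rw [sub_smul]
      have e6 : ((z ^ 2) ^ 2) • Y = aa A Y := (sub_eq_zero.1 e2).symm
      have e7 : (z ^ 2) • Y = aa A Y := (sub_eq_zero.1 e1).symm
      rw [e6, e7, sub_self]
    have e6 : (z ^ 2) ^ 2 - z ^ 2 = z - z ^ 2 := by linear_combination z * h3
    rw [e6] at e5
    exact e5
  rcases smul_eq_zero.1 e4 with h5 | h5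
  · exfalso
    have h6 : z * (1 - z) = 0 := by linear_combination h5
    rcases mul_eq_zero.1 h6 with h7 | h7
    · rw [h7] at hz
      norm_num at hz
    · have h8 : z = 1 := by linear_combination -h7
      rw [h8] at hz
      norm_num at hz
  · exact h5

end group

end Pool.Agent.H451.KG.MULT

namespace Pool.Agent.H451.KG

open WeierstrassCurve
open Pool.Agent.H451.CubT (E)
open Pool.Agent.H451.BB
open Pool.Agent.H451.KF.PTS
open Pool.Agent.Y692.QS (toC w w_sq)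
open SAME MULT
open scoped Classical TensorProduct

theorem t_MULT : S_MULT := by
  intro K F _ _ _ _ _ _ _ I hI r b θ c hb hθ hc hinj hσ D hD l hfin hfin' P
  have hF0 : CharZero F := charZero_of_injective_algebraMap (algebraMap K F).injective
  have hJ2 : algebraMap K F I ^ 2 + algebraMap K F I + 1 = 0 := by
    rw [← map_pow, ← map_one (algebraMap K F), ← map_add, ← map_add, hI, map_zero]
  have hisE : IsE (Affine.baseChange (E D).toAffine F) (algebraMap K F D) := isE_base hD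
  have hA := im_im hisE hJ2
  have hA3 : imE hisE hJ2 ^ 3 = 1 := A3_of hA
  have h1 : ∀ l : Fin r → ZMod 3, Finite (E (D * ∏ i, b i ^ (l i).val)).toAffine.Point →
      ∃ n : ℕ, 0 < n ∧ ∀ P, n • pr c (imE hisE hJ2) (sE D) l P = 0 := fun l hl =>
    killed _ (fix_fin hI hb hθ hσ hD hisE hJ2 l hl)
      (fun P τ => DFunLike.congr_fun (pr_eig hc hA3 (sE_mul D) (sE_comm hisE hJ2) l τ) P)
  obtain ⟨n, hn, hn1⟩ := h1 l hfin
  obtain ⟨n', hn', hn2⟩ := h1 (-l) hfin'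
  have hz : (toC w) ^ 2 + toC w + 1 = 0 := by
    rw [pow_two, ← map_mul, w_sq, map_sub, map_neg, map_one]
    ring
  exact mult_group c (A := imE hisE hJ2) hA (sE D) hz l hn hn1 hn' hn2 P

end Pool.Agent.H451.KG
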